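import Pool.Agent.MP_c69980_ag.G3R.Spec
import Pool.Agent.MP_c69980_ag.N96.WrA
import Pool.Agent.MP_c69980_ag.E1.AlgBA

/-!
Coordinates on a curve of genus zero.
-/

set_option autoImplicit false

noncomputable section

namespace Pool.Agent.MP_c69980_ag.G3R

open Set G3G Pool.Agent.MP_f3836a_nt.PK

namespace GenX

variable {F : Type} [Field F] [Algebra ℂ F] (A : PlA ℂ F) (B : PlB ℂ F) {f : F} {o : Place ℂ F}

/-- The only pole of `f` is a simple pole at `o`. -/
def SP (f : F) (o : Place ℂ F) : Prop := o.ord f = -1 ∧ ∀ P : Place ℂ F, P ≠ o → 0 ≤ P.ord f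

theorem SP.ne (h : SP f o) : f ≠ 0 := fun e => by
  have := h.1
  rw [e, PlB.ord_zero] at this
  omega

include A

theorem ev_lin {P : Place ℂ F} (hf : f ∈ P.V) (a b : ℂ) :
    algebraMap ℂ F a * f + algebraMap ℂ F b ∈ P.V ∧
      ev P (algebraMap ℂ F a * f + algebraMap ℂ F b) = a * ev P f + b := by
  obtain ⟨χ, h1, h2⟩ := A.hom P
  have m : algebraMap ℂ F a * f + algebraMap ℂ F b ∈ P.V :=
    add_mem (mul_mem (P.const a) hf) (P.const b)
  refine ⟨m, ?_⟩
  have := h1 (⟨_, P.const a⟩ * ⟨f, hf⟩ + ⟨_, P.const b⟩)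
  rw [map_add, map_mul, h1, h1, h1, h2, h2] at this
  rw [ev, ev, if_pos m, if_pos hf]
  exact this.symm

theorem SP.mem (h : SP f o) {P : Place ℂ F} (hP : P ≠ o) : f ∈ P.V :=
  (A.mem P f h.ne).2 (h.2 P hP)

theorem SP.lin (h : SP f o) {a : ℂ} (ha : a ≠ 0) (b : ℂ) :
    SP (algebraMap ℂ F a * f + algebraMap ℂ F b) o := by
  have a0 : algebraMap ℂ F a ≠ 0 := (map_ne_zero _).2 ha
  have e : o.ord (algebraMap ℂ F a * f) = -1 := by rw [A.mul o _ _ a0 h.ne, A.con, h.1, zero_add]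
  obtain ⟨h1, h2⟩ := N96.ord_add_eq A o (mul_ne_zero a0 h.ne) (b := algebraMap ℂ F b)
    (Or.inr (by rw [e, A.con]; omega))
  exact ⟨h2.trans e, fun P hP => (A.mem P _ h1).1 (ev_lin A (h.mem A hP) a b).1⟩

theorem SP.sub (h : SP f o) (c : ℂ) : SP (f - algebraMap ℂ F c) o := by
  simpa [sub_eq_add_neg] using h.lin A one_ne_zero (-c)

theorem SP.pos (h : SP f o) {P : Place ℂ F} (hP : P ≠ o) (c : ℂ) :
    0 < P.ord (f - algebraMap ℂ F c) ↔ ev P f = c := by
  rw [ev, if_pos (h.mem A hP), ← A.val P f (h.mem A hP) c, Place.Zero,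
    or_iff_right (h.sub A c).ne]

include B

omit A in
theorem SP.one (h : SP f o) :
    ∃ q : Place ℂ F, q ≠ o ∧ q.ord f = 1 ∧ ∀ P : Place ℂ F, 0 < P.ord f → P = q := by
  classical
  have e := B.sum f
  have ho : o ∈ (B.fin f).toFinset := by simp [h.1]
  rw [finsum_eq_sum_of_support_subset _ (s := (B.fin f).toFinset) (fun P hP => by simpa using hP),
    ← Finset.add_sum_erase _ _ ho, h.1] at e
  obtain ⟨q, hq, q0⟩ := Finset.exists_ne_zero_of_sum_ne_zero
    (s := (B.fin f).toFinset.erase o) (f := fun P => P.ord f) (by omega)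
  have nn : ∀ P ∈ ((B.fin f).toFinset.erase o).erase q, 0 ≤ P.ord f := fun P hP =>
    h.2 P (Finset.ne_of_mem_erase (Finset.mem_of_mem_erase hP))
  have q1 := h.2 q (Finset.ne_of_mem_erase hq)
  have s0 := Finset.sum_nonneg nn
  rw [← Finset.add_sum_erase _ _ hq] at e
  refine ⟨q, Finset.ne_of_mem_erase hq, by omega, fun P hP => by_contra fun hn => ?_⟩
  have := (Finset.sum_eq_zero_iff_of_nonneg nn).1 (by omega) P (Finset.mem_erase.2 ⟨hn,
    Finset.mem_erase.2 ⟨fun r => by have := h.1; rw [← r] at this; omega, by simpa using hP.ne'⟩⟩)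
  omega

theorem SP.crd (h : SP f o) : Crd f o := by
  refine ⟨?_, h.1, fun P hP => ⟨?_, fun c => ?_⟩, fun _ _ => trivial, fun P hP P' hP' e => ?_,
    fun c _ => ?_⟩
  · obtain ⟨q, -, q1, q2⟩ := h.one B
    have e := B.deg f (N96.tr_of_ord A q (by omega))
    rw [finsum_eq_single _ q fun P hP => max_eq_right (not_lt.1 fun r => hP (q2 P r)), q1] at e
    exact IntermediateField.finrank_eq_one_iff_eq_top.1 (by omega)
  · obtain ⟨q, -, q1, q2⟩ := (h.sub A (ev P f)).one B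
    rwa [← q2 P ((h.pos A hP _).2 rfl)] at q1
  · simpa [sub_eq_add_neg] using (ev_lin A (h.mem A hP) 1 (-c)).2
  · obtain ⟨q, -, -, q2⟩ := (h.sub A (ev P' f)).one B
    exact (q2 P ((h.pos A hP _).2 e)).trans (q2 P' ((h.pos A hP' _).2 rfl)).symm
  · obtain ⟨q, q0, q1, -⟩ := (h.sub A c).one B
    exact ⟨q, q0, (h.pos A q0 c).1 (by omega)⟩

theorem ex (G : Gz F) {q : Place ℂ F} (hq : q ≠ o) : ∃ f : F, SP f o ∧ ev q f = 0 := by
  classical
  obtain ⟨f, f0, hf⟩ := G (Finsupp.single o 1 - Finsupp.single q 1) (by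
    rw [finsum_eq_sum_of_support_subset _ (s := {o, q}) fun P hP => by
      by_contra r
      simp only [Finset.coe_insert, Finset.coe_singleton, mem_insert_iff, mem_singleton_iff,
        not_or] at r
      simp [r.1, r.2] at hP, Finset.sum_pair hq.symm]
    simp [hq, hq.symm])
  have h1 : -1 ≤ o.ord f := by simpa [hq, hq.symm] using hf o
  have h2 : 1 ≤ q.ord f := by simpa [hq, hq.symm] using hf q
  have h3 : ∀ P : Place ℂ F, P ≠ o → 0 ≤ P.ord f := fun P hP => by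
    by_cases r : P = q
    · rw [r]; omega
    · simpa [hP, r] using hf P
  have h4 : SP f o := ⟨by_contra fun r => by
    obtain ⟨a, rfl⟩ := B.const f fun P => (A.mem P f f0).2 (by
      by_cases r : P = o
      · rw [r]; omega
      · exact h3 P r)
    rw [A.con] at h2
    omega, h3⟩
  exact ⟨f, h4, (h4.pos A hq 0).1 (by rw [map_zero, sub_zero]; omega)⟩

end GenX

open GenX in
theorem genS : GenStmt := by
  intro F _ _ ⟨t, ht, _⟩ A B
  refine ⟨?_, fun G o q q' hq hq' => ⟨?_, fun hn => ?_⟩⟩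
  · obtain ⟨D, hD⟩ := E1.AlgB.exists_der_one (g := t) fun c e =>
      ht (e ▸ isAlgebraic_algebraMap c)
    exact ⟨D, fun e => by simp [e] at hD⟩
  · obtain ⟨f, h, h0⟩ := ex A B G hq
    exact ⟨f, h.crd A B, h0⟩
  · obtain ⟨f, h, h0⟩ := ex A B G hq'
    have e : ev q f ≠ 0 := fun r => hn ((h.crd A B).bij.2.1 hq hq' (r.trans h0.symm))
    refine ⟨_, (h.lin A (div_ne_zero two_ne_zero e) (-1)).crd A B, ?_, ?_⟩
    · rw [(ev_lin A (h.mem A hq) _ _).2, div_mul_cancel₀ _ e]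
      norm_num
    · rw [(ev_lin A (h.mem A hq') _ _).2, h0]
      simp

end Pool.Agent.MP_c69980_ag.G3R
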