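import Pool.Agent.MP_c69980_ag.G3R.Spec

/-! The cyclic cover of the punctured line given by a power. -/

set_option autoImplicit false

noncomputable section

namespace Pool.Agent.MP_c69980_ag.G3R

open Metric Filter Topology Set
open G3 G3G Pool.Agent.MP_f3836a_nt.PK

namespace CovA

theorem eq_of_pow {w w' : ℂ} {n : ℕ} {m x y : ℤ} (hb : n * x + m * y = 1) (h0 : w ≠ 0)
    (h0' : w' ≠ 0) (h1 : w ^ n = w' ^ n) (h2 : w ^ m = w' ^ m) : w = w' := by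
  have key : ∀ v : ℂ, v ≠ 0 → v = (v ^ n) ^ x * (v ^ m) ^ y := fun v hv => by
    rw [← zpow_natCast, ← zpow_mul, ← zpow_mul, ← zpow_add₀ hv, hb, zpow_one]
  rw [key w h0, key w' h0', h1, h2]

theorem split {ε η : ℂ} {g n : ℕ} {m x y : ℤ} (hb : n * x + m * y = 1) (hg : 0 < g) (hn : 0 < n)
    (hε : IsPrimitiveRoot ε (n * g)) (hη : η ^ (n * g) = 1) :
    ∃ j < g, ∃ δ : ℂ, δ ^ n = 1 ∧ η * δ ^ m = ε ^ j := by
  have : NeZero (n * g) := ⟨(Nat.mul_pos hn hg).ne'⟩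
  obtain ⟨i, -, rfl⟩ := hε.eq_pow_of_pow_eq_one hη
  have h0 : ε ≠ 0 := hε.ne_zero (Nat.mul_pos hn hg).ne'
  have h1 : ∀ t : ℤ, ε ^ (((n * g : ℕ) : ℤ) * t) = 1 := fun t => by
    rw [zpow_mul, zpow_natCast, hε.pow_eq_one, one_zpow]
  refine ⟨i % g, Nat.mod_lt _ hg, ε ^ (-(g * (i / g : ℕ) * y) : ℤ), ?_, ?_⟩
  · rw [← zpow_natCast, ← zpow_mul, ← h1 (-((i / g : ℕ) * y))]
    congr 1
    push_cast
    ring
  · have h2 : (i : ℤ) = g * (i / g : ℕ) + (i % g : ℕ) := by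
      exact_mod_cast (Nat.div_add_mod i g).symm
    rw [← zpow_natCast, ← zpow_mul, ← zpow_add₀ h0, ← zpow_natCast,
      ← mul_one (ε ^ ((i % g : ℕ) : ℤ)), ← h1 ((i / g : ℕ) * x), ← zpow_add₀ h0]
    congr 1
    generalize (i / g : ℕ) = s at *
    generalize (i % g : ℕ) = t at *
    rw [h2]
    push_cast
    linear_combination (-(g : ℤ) * s) * hb

theorem loc_pow {b : ℂ} (hb : b ≠ 0) {n : ℕ} (hn : 0 < n) : ∃ β : ℂ → ℂ, AnalyticAt ℂ β 0 ∧
    β 0 ≠ 0 ∧ ∀ ξ, (b + ξ) ^ n - b ^ n = ξ ^ 1 * β ξ := by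
  refine ⟨fun ξ => ∑ i ∈ Finset.range n, (b + ξ) ^ i * b ^ (n - 1 - i), ?_, ?_, fun ξ => ?_⟩
  · refine Differentiable.analyticAt ?_ _
    fun_prop
  · simp only [add_zero]
    rw [geom_sum₂_self]
    exact mul_ne_zero (Nat.cast_ne_zero.2 hn.ne') (pow_ne_zero _ hb)
  · rw [← geom_sum₂_mul]
    ring

end CovA

open CovA

theorem covAS : CovAStmt := by
  classical
  rintro α a Sf z c₀ κ o e op ha hc ho hz ⟨q₀, hq₀, z0, eo, hng, hq⟩
  obtain ⟨m, hm⟩ : ((Int.gcd a (κ q₀) : ℕ) : ℤ) ∣ κ q₀ := Int.gcd_dvd_right _ _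
  have hbz := Int.gcd_eq_gcd_ab a (κ q₀)
  generalize Int.gcdA a (κ q₀) = x at hbz
  generalize Int.gcdB a (κ q₀) = y at hbz
  generalize Int.gcd a (κ q₀) = g at *
  generalize hn' : e q₀ = n at *
  subst hng
  have hn : 0 < n := Nat.pos_of_mul_pos_right ha
  have hg : 0 < g := Nat.pos_of_mul_pos_left ha
  have hb : n * x + m * y = 1 := by
    refine mul_left_cancel₀ (show (g : ℤ) ≠ 0 by exact_mod_cast hg.ne') ?_
    rw [hm] at hbz
    push_cast at hbz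
    linear_combination -hbz
  obtain ⟨r, hr⟩ := IsAlgClosed.exists_pow_nat_eq c₀⁻¹ ha
  have hr0 : r ≠ 0 := fun e => by
    rw [e, zero_pow ha.ne'] at hr
    exact inv_ne_zero hc hr.symm
  obtain ⟨ε, hε⟩ : ∃ ε : ℂ, IsPrimitiveRoot ε (n * g) := ⟨_, Complex.isPrimitiveRoot_exp _ ha.ne'⟩
  have hε0 : ε ≠ 0 := hε.ne_zero ha.ne'
  let P : ℂ → ℂ := fun t => ∏ q ∈ Sf.erase q₀, (t - z q) ^ (κ q / (n * g : ℕ))
  have hP0 : ∀ t, (∀ q ∈ Sf, t ≠ z q) → P t ≠ 0 := fun t ht =>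
    Finset.prod_ne_zero_iff.2 fun q hq' =>
      zpow_ne_zero _ (sub_ne_zero.2 (ht q (Finset.mem_of_mem_erase hq')))
  have hR : ∀ t, Rz Sf z c₀ κ t = c₀ * (t ^ m) ^ g * P t ^ (n * g) := fun t => by
    rw [Rz, ← Finset.mul_prod_erase Sf _ hq₀, z0, sub_zero, hm, mul_comm (g : ℤ), zpow_mul,
      zpow_natCast, mul_assoc, ← Finset.prod_pow]
    congr 2
    refine Finset.prod_congr rfl fun q hq' => ?_
    rw [← zpow_natCast, ← zpow_mul, Int.ediv_mul_cancel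
      (hq q (Finset.mem_of_mem_erase hq') (Finset.ne_of_mem_erase hq')).2.2]
  let l0 : ℂ → ℂ := fun w => r * (w ^ m)⁻¹ * (P (w ^ n))⁻¹
  have hl : ∀ w, w ≠ 0 → P (w ^ n) ≠ 0 → l0 w ^ (n * g) * Rz Sf z c₀ κ (w ^ n) = 1 := by
    intro w hw hp
    have h1 : ((w ^ n) ^ m) ^ g = (w ^ m) ^ (n * g) := by
      rw [pow_mul, ← zpow_natCast w n, ← zpow_mul, mul_comm, zpow_mul, zpow_natCast]
    have h2 : w ^ m ≠ 0 := zpow_ne_zero _ hw
    simp only [l0]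
    rw [hR, h1, mul_pow, mul_pow, hr, inv_pow, inv_pow]
    field_simp
  let H : Finset ℂ := (Sf.erase q₀).biUnion fun q => (Polynomial.nthRoots n (z q)).toFinset
  have hH : ∀ w, w ∈ H ↔ ∃ q ∈ Sf.erase q₀, w ^ n = z q := fun w => by
    simp only [H, Finset.mem_biUnion, Multiset.mem_toFinset, Polynomial.mem_nthRoots hn]
  have hH0 : (0 : ℂ) ∉ H := fun h => by
    obtain ⟨q, h1, h2⟩ := (hH 0).1 h
    rw [zero_pow hn.ne', ← z0] at h2
    exact Finset.ne_of_mem_erase h1 (hz hq₀ (Finset.mem_of_mem_erase h1) h2).symm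
  have hne : ∀ w, w ≠ 0 → w ∉ H → ∀ q ∈ Sf, w ^ n ≠ z q := fun w h0 h1 q h2 h3 => by
    by_cases e' : q = q₀
    · rw [e', z0] at h3
      exact pow_ne_zero n h0 h3
    · exact h1 ((hH w).2 ⟨q, Finset.mem_erase.2 ⟨e', h2⟩, h3⟩)
  let tg : Bool ⊕ ℂ → α := fun s => match s with
    | .inl true => o
    | .inl false => q₀
    | .inr b => if h : ∃ q ∈ Sf.erase q₀, b ^ n = z q then h.choose else o
  have htg : ∀ b ∈ H, tg (.inr b) ∈ Sf.erase q₀ ∧ b ^ n = z (tg (.inr b)) := fun b hb' => by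
    have h := (hH b).1 hb'
    have e' : tg (.inr b) = h.choose := dif_pos h
    rw [e']
    exact h.choose_spec
  refine ⟨{
    J := Fin g
    H := H
    zf := fun w => w ^ n
    lam := fun j w => ε ^ (j : ℕ) * l0 w
    tg := tg
    H0 := hH0
    an := fun w h0 h1 => ⟨by fun_prop, ?_, hne w h0 h1, fun j => ⟨?_, ?_⟩⟩
    inj := ?_
    surj := ?_
    loc := ?_
    ti := rfl
    th := fun b hb' => (hq _ (Finset.mem_of_mem_erase (htg b hb').1)
      (Finset.ne_of_mem_erase (htg b hb').1)).1 }⟩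
  · rw [deriv_pow_field]
    exact mul_ne_zero (Nat.cast_ne_zero.2 hn.ne') (pow_ne_zero _ h0)
  · have a1 : AnalyticAt ℂ (fun w : ℂ => w ^ m) w := analyticAt_id.fun_zpow h0
    have a2 : AnalyticAt ℂ (fun w : ℂ => P (w ^ n)) w :=
      Finset.analyticAt_fun_prod _ fun q hq' =>
        (show AnalyticAt ℂ (fun w : ℂ => w ^ n - z q) w by fun_prop).fun_zpow
          (sub_ne_zero.2 (hne w h0 h1 q (Finset.mem_of_mem_erase hq')))
    exact analyticAt_const.mul ((analyticAt_const.mul (a1.inv (zpow_ne_zero _ h0))).mul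
      (a2.inv (hP0 _ (hne w h0 h1))))
  · rw [mul_pow, ← pow_mul, mul_comm (j : ℕ), pow_mul, hε.pow_eq_one, one_pow, one_mul]
    exact hl w h0 (hP0 _ (hne w h0 h1))
  · intro j j' w w' h0 h1 h0' _ h2 h3
    have h2' : w ^ n = w' ^ n := h2
    have h4 : ε ^ (j : ℕ) * w' ^ m = ε ^ (j' : ℕ) * w ^ m := by
      have p1 := hP0 _ (hne w h0 h1)
      have p2 : w ^ m ≠ 0 := zpow_ne_zero _ h0
      have p3 : w' ^ m ≠ 0 := zpow_ne_zero _ h0'
      simp only [l0] at h3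
      rw [← h2'] at h3
      field_simp at h3
      linear_combination h3
    have h5 : ∀ v : ℂ, (v ^ m) ^ n = (v ^ n) ^ m := fun v => by
      rw [← zpow_natCast, ← zpow_mul, mul_comm, zpow_mul, zpow_natCast]
    have h6 : (ε ^ n) ^ (j : ℕ) = (ε ^ n) ^ (j' : ℕ) := by
      have := congrArg (· ^ n) h4
      simp only [mul_pow, h5, h2'] at this
      rw [← pow_mul, mul_comm n, pow_mul, ← pow_mul ε n, mul_comm n, pow_mul]
      exact mul_right_cancel₀ (zpow_ne_zero _ (pow_ne_zero _ h0')) this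
    have h7 : j = j' := Fin.ext ((hε.pow ha rfl).pow_inj j.2 j'.2 h6)
    subst h7
    exact ⟨rfl, eq_of_pow hb h0 h0' h2' (mul_left_cancel₀ (pow_ne_zero _ hε0) h4).symm⟩
  · intro t l ht h1
    obtain ⟨w, rfl⟩ := IsAlgClosed.exists_pow_nat_eq t hn
    have h0 : w ≠ 0 := fun e' => ht q₀ hq₀ (by rw [e', zero_pow hn.ne', z0])
    have p1 := hP0 _ ht
    have p2 : w ^ m ≠ 0 := zpow_ne_zero _ h0
    have h2 := hl w h0 p1
    have h3 : l0 w ≠ 0 := mul_ne_zero (mul_ne_zero hr0 (inv_ne_zero p2)) (inv_ne_zero p1)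
    have h4 : (l / l0 w) ^ (n * g) = 1 := by
      rw [div_pow, div_eq_one_iff_eq (pow_ne_zero _ h3)]
      exact mul_right_cancel₀ (right_ne_zero_of_mul_eq_one h1) (h1.trans h2.symm)
    obtain ⟨j, hj, δ, d1, d2⟩ := split hb hg hn hε h4
    have d0 : δ ≠ 0 := fun e' => by
      rw [e', zero_pow hn.ne'] at d1
      exact zero_ne_one d1
    have d3 : (δ * w) ^ n = w ^ n := by rw [mul_pow, d1, one_mul]
    refine ⟨⟨j, hj⟩, δ * w, mul_ne_zero d0 h0, fun h => ?_, d3, ?_⟩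
    · obtain ⟨q, q1, q2⟩ := (hH _).1 h
      exact ht q (Finset.mem_of_mem_erase q1) (d3.symm.trans q2)
    · have d4 : δ ^ m ≠ 0 := zpow_ne_zero _ d0
      show ε ^ j * l0 (δ * w) = l
      rw [← d2]
      simp only [l0]
      rw [d3, mul_zpow]
      field_simp
  · rintro ((_ | _) | b) hs
    · refine ⟨Or.inr hq₀, fun _ => 1, analyticAt_const, one_ne_zero, Eventually.of_forall fun ξ => ?_⟩
      show uc z o q₀ (ξ ^ n) = ξ ^ e q₀ * 1
      rw [uc, if_neg (ne_of_mem_of_not_mem hq₀ ho), z0, hn', sub_zero, mul_one]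
    · refine ⟨Or.inl rfl, fun _ => 1, analyticAt_const, one_ne_zero, Eventually.of_forall fun ξ => ?_⟩
      show uc z o o (ξ⁻¹ ^ n) = ξ ^ e o * 1
      rw [uc, if_pos rfl, eo, inv_pow, inv_inv, mul_one]
    · have hb' := hs b rfl
      obtain ⟨t1, t2⟩ := htg b hb'
      have t3 := Finset.mem_of_mem_erase t1
      obtain ⟨β, b1, b2, b3⟩ := loc_pow (fun e' => hH0 (e' ▸ hb') : b ≠ 0) hn
      refine ⟨Or.inr t3, β, b1, b2, Eventually.of_forall fun ξ => ?_⟩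
      show uc z o (tg (.inr b)) ((b + ξ) ^ n) = _
      rw [uc, if_neg (ne_of_mem_of_not_mem t3 ho), ← t2, (hq _ t3 (Finset.ne_of_mem_erase t1)).2.1, b3]

end Pool.Agent.MP_c69980_ag.G3R
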