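import Pool.Agent.MP_c69980_ag.G3R.Spec

/-!
The explicit cover with two points of ramification two.
-/

set_option autoImplicit false

noncomputable section

namespace Pool.Agent.MP_c69980_ag.G3R

open Metric Filter Topology Set
open G3 G3G

namespace CovBX

/-- The covering map. -/
def zf (w : ℂ) : ℂ := (w + w⁻¹) / 2

variable {w w' b : ℂ}

lemma zf_inv (w : ℂ) : zf w⁻¹ = zf w := by rw [zf, zf, inv_inv, add_comm]

lemma zf_sub (h : w ≠ 0) (h' : w' ≠ 0) :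
    zf w - zf w' = (w - w') * ((w * w' - 1) / (2 * (w * w'))) := by
  rw [zf, zf]
  field_simp
  ring

lemma zf_fib (h : w ≠ 0) (h' : w' ≠ 0) (e : zf w = zf w') : w' = w ∨ w' = w⁻¹ := by
  rw [← sub_eq_zero, zf_sub h h', mul_eq_zero, div_eq_zero_iff] at e
  rcases e with e | e | e
  · exact .inl (sub_eq_zero.1 e).symm
  · exact .inr (eq_inv_of_mul_eq_one_right (sub_eq_zero.1 e))
  · exact absurd e (mul_ne_zero two_ne_zero (mul_ne_zero h h'))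

lemma zf_surj (x : ℂ) : ∃ w, w ≠ 0 ∧ zf w = x := by
  obtain ⟨s, hs⟩ := IsAlgClosed.exists_pow_nat_eq (x ^ 2 - 1) two_pos
  have e : (x + s) * (x - s) = 1 := by linear_combination -hs
  refine ⟨x + s, left_ne_zero_of_mul_eq_one e, ?_⟩
  rw [zf, ← eq_inv_of_mul_eq_one_right e]
  ring

lemma zf_fin (x : ℂ) : {w | w ≠ 0 ∧ zf w = x}.Finite := by
  obtain ⟨v, v0, rfl⟩ := zf_surj x
  exact (toFinite {v, v⁻¹}).subset fun w hw => zf_fib v0 hw.1 hw.2.symm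

lemma zf_one : zf 1 = 1 := by norm_num [zf]

lemma zf_neg : zf (-1) = -1 := by norm_num [zf]

lemma zf_an (h : w ≠ 0) : AnalyticAt ℂ zf w :=
  (analyticAt_id.add (analyticAt_id.inv h)).div_const

lemma zf_der (h : w ≠ 0) (h1 : w ≠ 1) (h2 : w ≠ -1) : deriv zf w ≠ 0 := by
  have d : HasDerivAt zf ((1 + -(w ^ 2)⁻¹) / 2) w :=
    ((hasDerivAt_id w).add (hasDerivAt_inv h)).div_const 2
  rw [d.deriv]
  refine div_ne_zero (fun e => ?_) two_ne_zero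
  rw [add_neg_eq_zero, eq_comm, inv_eq_one, sq, mul_self_eq_one_iff] at e
  exact e.elim h1 h2

/-- The root of the two ramified factors. -/
def pp (m₁ m₂ : ℤ) (w : ℂ) : ℂ :=
  (w - 1) ^ (2 * m₁ + 1) * (w + 1) ^ (2 * m₂ + 1) / (2 * w) ^ (m₁ + m₂ + 1)

variable {m₁ m₂ : ℤ}

lemma pp_ne (h : w ≠ 0) (h1 : w ≠ 1) (h2 : w ≠ -1) : pp m₁ m₂ w ≠ 0 :=
  div_ne_zero (mul_ne_zero (zpow_ne_zero _ (sub_ne_zero.2 h1))
    (zpow_ne_zero _ fun e => h2 (eq_neg_of_add_eq_zero_left e)))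
    (zpow_ne_zero _ (mul_ne_zero two_ne_zero h))

lemma pp_an (h : w ≠ 0) (h1 : w ≠ 1) (h2 : w ≠ -1) : AnalyticAt ℂ (pp m₁ m₂) w :=
  (((analyticAt_id.sub analyticAt_const).zpow (sub_ne_zero.2 h1)).mul
    ((analyticAt_id.add analyticAt_const).zpow fun e => h2 (eq_neg_of_add_eq_zero_left e))).div
    ((analyticAt_const.mul analyticAt_id).zpow (mul_ne_zero two_ne_zero h))
    (zpow_ne_zero _ (mul_ne_zero two_ne_zero h))

lemma pp_sq (h : w ≠ 0) :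
    pp m₁ m₂ w ^ 2 = (zf w - 1) ^ (2 * m₁ + 1) * (zf w + 1) ^ (2 * m₂ + 1) := by
  have e1 : zf w - 1 = (w - 1) ^ 2 / (2 * w) := by
    rw [zf]
    field_simp
    ring
  have e2 : zf w + 1 = (w + 1) ^ 2 / (2 * w) := by
    rw [zf]
    field_simp
    ring
  have k : ∀ (y : ℂ) (m : ℤ), (y ^ 2) ^ m = (y ^ m) ^ 2 := fun y m => by rw [sq, sq, mul_zpow]
  rw [e1, e2, div_zpow, div_zpow, k, k, div_mul_div_comm,
    ← zpow_add₀ (mul_ne_zero two_ne_zero h), pp, div_pow, mul_pow, sq ((2 * w) ^ _),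
    ← zpow_add₀ (mul_ne_zero two_ne_zero h)]
  congr 2
  ring

lemma pp_inv (h : w ≠ 0) : pp m₁ m₂ w⁻¹ = -pp m₁ m₂ w := by
  have e1 : w⁻¹ - 1 = -(w - 1) / w := by field_simp; ring
  have e2 : w⁻¹ + 1 = (w + 1) / w := by field_simp; ring
  have e3 : 2 * w⁻¹ = 2 * w / (w * w) := by field_simp
  have e4 : w ^ (2 * m₁ + 1) * w ^ (2 * m₂ + 1) = (w * w) ^ (m₁ + m₂ + 1) := by
    rw [mul_zpow, ← zpow_add₀ h, ← zpow_add₀ h]
    congr 1
    ring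
  rw [pp, pp, e1, e2, e3, div_zpow, div_zpow, div_zpow, (odd_two_mul_add_one m₁).neg_zpow,
    div_mul_div_comm, e4, div_div_div_cancel_right₀ (zpow_ne_zero _ (mul_ne_zero h h)), neg_mul,
    neg_div]

lemma loc_inf : ∃ β : ℂ → ℂ, AnalyticAt ℂ β 0 ∧ β 0 ≠ 0 ∧
    ∀ᶠ ξ in 𝓝[≠] (0 : ℂ), (zf ξ)⁻¹ = ξ ^ 1 * β ξ := by
  refine ⟨fun ξ => 2 / (ξ ^ 2 + 1), analyticAt_const.div
    ((analyticAt_id.pow 2).add analyticAt_const) (by simp), by simp, ?_⟩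
  filter_upwards [self_mem_nhdsWithin] with ξ (h : ξ ≠ 0)
  have e : zf ξ = (ξ ^ 2 + 1) / (ξ * 2) := by
    rw [zf]
    field_simp
  rw [e, inv_div, pow_one, mul_div_assoc]

lemma ev_ne (h : b ≠ 0) : ∀ᶠ ξ in 𝓝[≠] (0 : ℂ), b + ξ ≠ 0 :=
  nhdsWithin_le_nhds ((continuous_const_add b).continuousAt.eventually_ne (by simpa using h))

lemma loc_one (h : b ≠ 0) (h1 : b ≠ 1) (h2 : b ≠ -1) : ∃ β : ℂ → ℂ, AnalyticAt ℂ β 0 ∧ β 0 ≠ 0 ∧
    ∀ᶠ ξ in 𝓝[≠] (0 : ℂ), zf (b + ξ) - zf b = ξ ^ 1 * β ξ := by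
  have a : AnalyticAt ℂ (fun ξ => (b + ξ) * b) 0 :=
    (analyticAt_const.add analyticAt_id).mul analyticAt_const
  refine ⟨fun ξ => ((b + ξ) * b - 1) / (2 * ((b + ξ) * b)), (a.sub analyticAt_const).div
    (analyticAt_const.mul a) (by simpa using h), ?_, ?_⟩
  · simpa [h, sub_eq_zero, mul_self_eq_one_iff] using And.intro h1 h2
  · filter_upwards [ev_ne h] with ξ q
    rw [zf_sub q h, add_sub_cancel_left, pow_one]

lemma loc_two (h : b * b = 1) : ∃ β : ℂ → ℂ, AnalyticAt ℂ β 0 ∧ β 0 ≠ 0 ∧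
    ∀ᶠ ξ in 𝓝[≠] (0 : ℂ), zf (b + ξ) - zf b = ξ ^ 2 * β ξ := by
  have h0 : b ≠ 0 := left_ne_zero_of_mul_eq_one h
  refine ⟨fun ξ => (2 * (b + ξ))⁻¹, (analyticAt_const.mul
    (analyticAt_const.add analyticAt_id)).inv (by simpa using h0), by simpa using h0, ?_⟩
  filter_upwards [ev_ne h0] with ξ q
  rw [zf_sub q h0, add_sub_cancel_left, show (b + ξ) * b - 1 = ξ * b by linear_combination h]
  field_simp

end CovBX

open CovBX in
theorem covBS : CovBStmt := by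
  classical
  intro α a Sf z c₀ κ o e op a0 c0 ho hz
    ⟨q₁, s1, q₂, s2, z1, z2, eo, e1, e2, ⟨d, m₁, m₂, had, k1, k2⟩, hq⟩
  have q12 : q₂ ≠ q₁ := fun h => by
    rw [h, z1] at z2
    norm_num at z2
  have hH : {w | ∃ q ∈ Sf, w ≠ 0 ∧ zf w = z q}.Finite :=
    (Sf.finite_toSet.biUnion fun q _ => zf_fin (z q)).subset fun w ⟨q, a, b⟩ => mem_biUnion a b
  have mH : ∀ {w}, w ≠ 0 → (w ∉ hH.toFinset ↔ ∀ q ∈ Sf, zf w ≠ z q) := fun h => by simp [h]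
  have n12 : ∀ {w}, (∀ q ∈ Sf, zf w ≠ z q) → w ≠ 1 ∧ w ≠ -1 := fun h =>
    ⟨fun q => h q₁ s1 (by rw [q, z1, zf_one]), fun q => h q₂ s2 (by rw [q, z2, zf_neg])⟩
  obtain ⟨r, hr⟩ := IsAlgClosed.exists_pow_nat_eq c₀⁻¹ a0
  have r0 : r ≠ 0 := fun h => inv_ne_zero c0 (by rw [← hr, h, zero_pow a0.ne'])
  obtain ⟨R, hR⟩ : ∃ R : ℂ → ℂ,
      R = fun x => ∏ q ∈ (Sf.erase q₁).erase q₂, (x - z q) ^ (κ q / a) := ⟨_, rfl⟩
  have sub : ∀ q ∈ (Sf.erase q₁).erase q₂, q ∈ Sf := fun q h =>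
    Finset.mem_of_mem_erase (Finset.mem_of_mem_erase h)
  have R0 : ∀ {x}, (∀ q ∈ Sf, x ≠ z q) → R x ≠ 0 := fun h => hR ▸
    Finset.prod_ne_zero_iff.2 fun q m => zpow_ne_zero _ (sub_ne_zero.2 (h q (sub q m)))
  have Ra : ∀ {x}, (∀ q ∈ Sf, x ≠ z q) → AnalyticAt ℂ R x := fun h => hR ▸
    Finset.analyticAt_fun_prod _ fun q m =>
      (analyticAt_id.sub analyticAt_const).zpow (sub_ne_zero.2 (h q (sub q m)))
  have Rz1 : ∀ {w}, w ≠ 0 → Rz Sf z c₀ κ (zf w) = c₀ * (pp m₁ m₂ w * R (zf w)) ^ a := by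
    intro w h
    have e3 : R (zf w) ^ a = ∏ q ∈ (Sf.erase q₁).erase q₂, (zf w - z q) ^ κ q := by
      rw [hR, ← Finset.prod_pow]
      refine Finset.prod_congr rfl fun q m => ?_
      rw [← zpow_natCast, ← zpow_mul, Int.ediv_mul_cancel ((hq q (sub q m)).2
        (Finset.ne_of_mem_erase (Finset.mem_of_mem_erase m)) (Finset.ne_of_mem_erase m)).2]
    rw [Rz, ← Finset.mul_prod_erase _ _ s1, ← Finset.mul_prod_erase _ _
      (Finset.mem_erase.2 ⟨q12, s2⟩), mul_pow, e3, had, pow_mul, pp_sq h, z1, z2, k1, k2,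
      sub_neg_eq_add, mul_pow, mul_comm (d : ℤ), mul_comm (d : ℤ), zpow_mul, zpow_mul,
      zpow_natCast, zpow_natCast, mul_assoc]
  obtain ⟨l, hl⟩ : ∃ l : ℂ → ℂ, l = fun w => r / (pp m₁ m₂ w * R (zf w)) := ⟨_, rfl⟩
  have l1 : ∀ {w}, w ≠ 0 → (∀ q ∈ Sf, zf w ≠ z q) →
      l w ≠ 0 ∧ AnalyticAt ℂ l w ∧ l w ^ a * Rz Sf z c₀ κ (zf w) = 1 := fun {w} h h' => by
    have n := mul_ne_zero (pp_ne (m₁ := m₁) (m₂ := m₂) h (n12 h').1 (n12 h').2) (R0 h')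
    rw [hl, Rz1 h]
    refine ⟨div_ne_zero r0 n, analyticAt_const.div ((pp_an h (n12 h').1 (n12 h').2).mul
      ((Ra h').comp (zf_an h))) n, ?_⟩
    rw [div_pow, hr]
    field_simp
  have l2 : ∀ {w}, w ≠ 0 → l w⁻¹ = -l w := fun h => by
    simp only [hl, pp_inv h, zf_inv, neg_mul, div_neg]
  obtain ⟨μ, hμ⟩ : ∃ μ : ℂ, IsPrimitiveRoot μ a := ⟨_, Complex.isPrimitiveRoot_exp a a0.ne'⟩
  have μd : μ ^ d = -1 := (hμ.pow a0 (had.trans (mul_comm 2 d))).eq_neg_one_of_two_right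
  have tq : ∀ b, ∃ q, b ∈ hH.toFinset → q ∈ Sf ∧ b ≠ 0 ∧ zf b = z q := fun b => by
    by_cases h : b ∈ hH.toFinset
    · exact (hH.mem_toFinset.1 h).imp fun q hq _ => hq
    · exact ⟨o, fun h' => absurd h' h⟩
  choose t ht using tq
  refine ⟨{
    J := Fin d
    H := hH.toFinset
    zf := zf
    lam := fun j w => μ ^ (j : ℕ) * l w
    tg := Sum.elim (fun _ => o) t
    H0 := by simp
    an := fun w h h' => ?_
    inj := fun j j' w w' h1 h2 h3 h4 h5 h6 => ?_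
    surj := fun x y h1 h2 => ?_
    loc := fun s hs => ?_
    ti := rfl
    th := fun b hb => (hq _ (ht b hb).1).1 }⟩
  · replace h' := (mH h).1 h'
    refine ⟨zf_an h, zf_der h (n12 h').1 (n12 h').2, h', fun j =>
      ⟨analyticAt_const.mul (l1 h h').2.1, ?_⟩⟩
    rw [mul_pow, ← pow_mul, mul_comm _ a, pow_mul, hμ.pow_eq_one, one_pow, one_mul]
    exact (l1 h h').2.2
  · have n := (l1 h1 ((mH h1).1 h2)).1
    have j1 := j.2
    have j2 := j'.2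
    rcases zf_fib h1 h3 h5 with rfl | rfl
    · exact ⟨Fin.ext (hμ.pow_inj (by omega) (by omega) (mul_right_cancel₀ n h6)), rfl⟩
    · rw [l2 h1, ← neg_one_mul, ← μd, ← mul_assoc, ← pow_add] at h6
      have := hμ.pow_inj (by omega) (by omega) (mul_right_cancel₀ n h6)
      omega
  · obtain ⟨w, w0, rfl⟩ := zf_surj x
    obtain ⟨n, -, n2⟩ := l1 w0 h1
    have : NeZero a := ⟨a0.ne'⟩
    obtain ⟨i, i1, i2⟩ := hμ.eq_pow_of_pow_eq_one (ξ := y / l w) (by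
      rw [div_pow, mul_right_cancel₀ (right_ne_zero_of_mul_eq_one n2) (h2.trans n2.symm),
        div_self (pow_ne_zero _ n)])
    rw [eq_div_iff n] at i2
    by_cases hi : i < d
    · exact ⟨⟨i, hi⟩, w, w0, (mH w0).2 h1, rfl, i2⟩
    · refine ⟨⟨i - d, by omega⟩, w⁻¹, inv_ne_zero w0,
        (mH (inv_ne_zero w0)).2 (by rwa [zf_inv]), zf_inv w, ?_⟩
      rw [l2 w0, ← neg_one_mul, ← μd, ← mul_assoc, ← pow_add, Nat.sub_add_cancel (not_lt.1 hi)]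
      exact i2
  · rcases s with (_ | _) | b
    · exact ⟨.inl rfl, by simpa only [Sum.elim_inl, uc, if_true, eo, slot] using loc_inf⟩
    · exact ⟨.inl rfl, by simpa only [Sum.elim_inl, uc, if_true, eo, slot, zf_inv] using loc_inf⟩
    obtain ⟨b1, b2, b3⟩ := ht b (hs b rfl)
    refine ⟨.inr b1, ?_⟩
    simp only [Sum.elim_inr, uc, if_neg (fun h : t b = o => ho (h ▸ b1)), slot, ← b3]
    by_cases c1 : t b = q₁
    · rw [c1, e1]
      rw [c1, z1, ← zf_one] at b3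
      exact loc_two (by rcases zf_fib one_ne_zero b2 b3.symm with h | h <;> simp [h])
    by_cases c2 : t b = q₂
    · rw [c2, e2]
      rw [c2, z2, ← zf_neg] at b3
      exact loc_two (by rcases zf_fib (by simp) b2 b3.symm with h | h <;> simp [h])
    rw [((hq _ b1).2 c1 c2).1]
    exact loc_one b2 (fun h => c1 (hz b1 s1 (by rw [← b3, h, z1, zf_one])))
      fun h => c2 (hz b1 s2 (by rw [← b3, h, z2, zf_neg]))

end Pool.Agent.MP_c69980_ag.G3R
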