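import Pool.Agent.MP_c69980_ag.G3R.Spec
import Pool.Agent.MP_c69980_ag.N96.WrB

/-!
The trichotomy for an orbifold curve, in the function field.
-/

set_option autoImplicit false

noncomputable section

namespace Pool.Agent.MP_c69980_ag.G3R

open G3 G3G Pool.Agent.MP_f3836a_nt.PK
open N96 (dg dg_add dg_sub dg_single)

namespace NumA

theorem rat {α : Type} (S : Finset α) (e : α → ℕ) (op : α → Prop) (t : α → ℤ) (N : ℤ)
    (hN : 0 < N) (hS : 2 ≤ S.card) (h0 : ∀ P ∈ S, 0 ≤ t P) (h1 : ∀ P ∈ S, op P → t P = N)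
    (h2 : ∀ P ∈ S, op P ∨ e P ≠ 1 → N ≤ 2 * t P ∧ (2 * t P ≤ N → ¬op P ∧ e P = 2))
    (h3 : ∑ P ∈ S, t P ≤ 2 * N) {o : α} (ho : o ∈ S) (hop : op o) : RatD (S : Set α) e op := by
  classical
  have sub : ∀ T ⊆ S, ∑ P ∈ T, t P ≤ 2 * N := fun T hT =>
    (Finset.sum_le_sum_of_subset_of_nonneg hT fun P hP _ => h0 P hP).trans h3
  have small : ∀ P, ¬(op P ∨ e P ≠ 1) → ¬op P ∧ e P = 1 := fun P h => by
    rwa [not_or, not_not] at h
  refine ⟨o, ho, hop, ?_⟩
  by_cases h : ∃ q ∈ S, ∃ q' ∈ S, q ≠ o ∧ q' ≠ o ∧ q ≠ q' ∧ (op q ∨ e q ≠ 1) ∧ (op q' ∨ e q' ≠ 1)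
  · obtain ⟨q, hq, q', hq', n1, n2, n3, b1, b2⟩ := h
    have e1 : ∑ P ∈ ({o, q, q'} : Finset α), t P = N + (t q + t q') := by
      rw [Finset.sum_insert (by simp [n1.symm, n2.symm]), Finset.sum_pair n3, h1 o ho hop]
    have s1 : ({o, q, q'} : Finset α) ⊆ S := by
      simp only [Finset.insert_subset_iff, Finset.singleton_subset_iff]
      exact ⟨ho, hq, hq'⟩
    have e2 := sub _ s1
    obtain ⟨c1, c2⟩ := h2 q hq b1
    obtain ⟨c3, c4⟩ := h2 q' hq' b2
    have c5 := c2 (by omega)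
    have c6 := c4 (by omega)
    have e3 : ∀ P ∈ S, P ≠ o → P ≠ q → P ≠ q' → ¬op P ∧ e P = 1 := fun P hP m1 m2 m3 =>
      small P fun hb => by
        have e4 := sub _ (Finset.insert_subset hP s1)
        rw [Finset.sum_insert (by simp [m1, m2, m3])] at e4
        have := (h2 P hP hb).1
        omega
    refine Or.inr ⟨q, hq, q', hq', n1, n2, n3, c5.2, c6.2, fun P hP m1 =>
      ⟨?_, fun m2 m3 => (e3 P hP m1 m2 m3).2⟩⟩
    by_cases m2 : P = q
    · exact m2 ▸ c5.1
    by_cases m3 : P = q'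
    · exact m3 ▸ c6.1
    exact (e3 P hP m1 m2 m3).1
  · by_cases h' : ∃ q ∈ S, q ≠ o ∧ (op q ∨ e q ≠ 1)
    · obtain ⟨q, hq, n1, b1⟩ := h'
      exact Or.inl ⟨q, hq, n1, fun P hP m1 m2 =>
        small P fun hb => h ⟨P, hP, q, hq, m1, n1, m2, hb, b1⟩⟩
    · obtain ⟨q, hq, n1⟩ := Finset.exists_mem_ne hS o
      exact Or.inl ⟨q, hq, n1, fun P hP m1 _ => small P fun hb => h' ⟨P, hP, m1, hb⟩⟩

variable {F : Type} [Field F] [Algebra ℂ F]

open Classical in
/-- The divisor with coefficients `w` on `S`. -/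
def onS (S : Finset (Place ℂ F)) (w : Place ℂ F → ℤ) : Place ℂ F →₀ ℤ :=
  Finsupp.onFinset S (fun P => if P ∈ S then w P else 0) fun _ h => by_contra fun h' => h (if_neg h')

theorem onS_mem {S : Finset (Place ℂ F)} (w : Place ℂ F → ℤ) {P : Place ℂ F} (h : P ∈ S) :
    onS S w P = w P := if_pos h

theorem onS_not {S : Finset (Place ℂ F)} (w : Place ℂ F → ℤ) {P : Place ℂ F} (h : P ∉ S) :
    onS S w P = 0 := if_neg h

theorem dg_onS (S : Finset (Place ℂ F)) (w : Place ℂ F → ℤ) : dg (onS S w) = ∑ P ∈ S, w P := by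
  rw [dg, finsum_eq_sum_of_support_subset (s := S) _ fun P h =>
    by_contra fun h' => h (onS_not w h')]
  exact Finset.sum_congr rfl fun P hP => onS_mem w hP

theorem dg_smul (n : ℤ) (E : Place ℂ F →₀ ℤ) : dg (n • E) = n * dg E :=
  (mul_finsum _ _).symm

theorem key (B : PlB ℂ F) {E : Place ℂ F →₀ ℤ} {f : F} (h : ∀ P, -E P ≤ P.ord f)
    (Q : Place ℂ F) : E Q + Q.ord f ≤ dg E := by
  let D : Place ℂ F →₀ ℤ := E + Finsupp.ofSupportFinite (fun P : Place ℂ F => P.ord f) (B.fin f)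
  have e1 : ∀ P, D P = E P + P.ord f := fun P => rfl
  have e2 : dg D = dg E := by
    rw [dg_add]
    exact add_eq_left.2 (B.sum f)
  rw [← e2, ← e1]
  exact single_le_finsum Q D.hasFiniteSupport fun P => by
    have := h P
    rw [e1]
    omega

theorem two (hF : IsFF ℂ F) (A : PlA ℂ F) (B : PlB ℂ F) : ∃ g : ℕ, ∀ D : Place ℂ F →₀ ℤ,
    g ≤ dg D → ∃ f f' : F, f ≠ 0 ∧ f' ≠ 0 ∧ (∀ P, -D P ≤ P.ord f) ∧ (∀ P, -D P ≤ P.ord f') ∧
      ∀ s : ℂ, f' ≠ algebraMap ℂ F s * f := by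
  obtain ⟨g, hg⟩ := N96.riem hF A B
  have := N96.infinite_place hF A B
  obtain ⟨Q, Q', hQ⟩ := exists_pair_ne (Place ℂ F)
  refine ⟨2 * g.natAbs + 1, fun D hD => ?_⟩
  have h1 : ∀ R : Place ℂ F, ∃ f : F, f ≠ 0 ∧ (∀ P, -D P ≤ P.ord f) ∧
      dg D - g - D R ≤ R.ord f := fun R => by
    obtain ⟨f, f0, hf⟩ := hg (D - Finsupp.single R (dg D - g)) (by
      change _ ≤ dg _
      rw [dg_sub, dg_single]
      omega)
    have h2 := hf R
    rw [Finsupp.sub_apply, Finsupp.single_eq_same] at h2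
    refine ⟨f, f0, fun P => ?_, by omega⟩
    by_cases hP : P = R
    · rw [hP]
      omega
    · have h3 := hf P
      rwa [Finsupp.sub_apply, Finsupp.single_eq_of_ne hP, sub_zero] at h3
  obtain ⟨f, f0, a1, a2⟩ := h1 Q
  obtain ⟨f', f1, a3, a4⟩ := h1 Q'
  refine ⟨f, f', f0, f1, a1, a3, fun s hs => ?_⟩
  rw [hs, A.mul Q' _ _ (left_ne_zero_of_mul (hs ▸ f1)) f0, A.con, zero_add] at a4
  have h2 := key B (E := D - Finsupp.single Q (dg D - g)) (f := f) (fun P => by
    by_cases hP : P = Q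
    · rw [hP, Finsupp.sub_apply, Finsupp.single_eq_same]
      omega
    · rw [Finsupp.sub_apply, Finsupp.single_eq_of_ne hP, sub_zero]
      exact a1 P) Q'
  rw [Finsupp.sub_apply, Finsupp.single_eq_of_ne hQ.symm, dg_sub, dg_single] at h2
  omega

end NumA

open NumA in
theorem numS : NumOf := by
  intro hR F _ _ hF A B δ u S e op hδ hu hS he
  classical
  let Z : Place ℂ F →₀ ℤ :=
    Finsupp.ofSupportFinite (fun P : Place ℂ F => P.ord (δ (u P))) (N96.fin_all A hF B hδ hu)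
  have z1 : ∀ μ f P, od δ u μ f P = P.ord f - μ * Z P := fun _ _ _ => rfl
  have z2 : dg Z ≤ 2 := N96.sum_le A hF B hδ hu
  obtain ⟨N, hN, n, hn⟩ : ∃ N : ℕ, 0 < N ∧ ∃ n : Place ℂ F → ℤ, ∀ P ∈ S, e P * n P = N :=
    ⟨∏ P ∈ S, e P, Finset.prod_pos fun P _ => he P, fun P => ((∏ P ∈ S, e P) / e P : ℕ),
      fun P hP => (Nat.cast_mul _ _).symm.trans
        (congrArg Nat.cast (Nat.mul_div_cancel' (Finset.dvd_prod_of_mem e hP)))⟩
  have N0 : (0 : ℤ) < N := Int.natCast_pos.2 hN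
  have e0 : ∀ P, (1 : ℤ) ≤ e P := fun P => Int.natCast_pos.2 (he P)
  have n0 : ∀ P ∈ S, 0 < n P := fun P hP =>
    (pos_iff_pos_of_mul_pos (hn P hP ▸ N0)).1 (by have := e0 P; omega)
  obtain ⟨t, t1, t2⟩ : ∃ t : Place ℂ F → ℤ, (∀ P, op P → t P = N) ∧ ∀ P, ¬op P → t P = N - n P :=
    ⟨fun P => if op P then N else N - n P, fun _ h => if_pos h, fun _ h => if_neg h⟩
  have t0 : ∀ P ∈ S, 0 ≤ t P := fun P hP => by
    by_cases h : op P
    · rw [t1 P h]
      exact N0.le
    · rw [t2 P h, ← hn P hP]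
      nlinarith [e0 P, n0 P hP]
  by_cases hd : 0 < ∑ P ∈ S, t P - N * dg Z
  · obtain ⟨g, hg⟩ := two hF A B
    obtain ⟨j, hj⟩ : ∃ j : ℕ, j = g + S.card := ⟨_, rfl⟩
    let w : Place ℂ F → ℤ := fun P => j * t P - if op P then 1 else 0
    obtain ⟨f, f', f0, f1, a1, a2, a3⟩ := hg (onS S w - ((j * N : ℕ) : ℤ) • Z) (by
      have h1 : ∑ P ∈ S, (if op P then 1 else 0 : ℤ) ≤ S.card := by
        have h2 := Finset.sum_le_card_nsmul S (fun P => (if op P then 1 else 0 : ℤ)) 1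
          fun P _ => by split_ifs <;> omega
        rwa [nsmul_eq_mul, mul_one] at h2
      have h2 : (j : ℤ) * 1 ≤ j * (∑ P ∈ S, t P - N * dg Z) :=
        mul_le_mul_of_nonneg_left hd (Int.natCast_nonneg j)
      have h3 : (j : ℤ) = g + S.card := by exact_mod_cast hj
      rw [dg_sub, dg_smul, dg_onS, Finset.sum_sub_distrib, ← Finset.mul_sum]
      push_cast
      linarith)
    have orb : ∀ f : F, f ≠ 0 → (∀ P, -(onS S w - ((j * N : ℕ) : ℤ) • Z) P ≤ P.ord f) →
        Orb δ u S e op (j * N) f := fun f f0 h => by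
      have h1 : ∀ P, -onS S w P ≤ od δ u (j * N) f P := fun P => by
        have h2 := h P
        rw [Finsupp.sub_apply, Finsupp.smul_apply, smul_eq_mul] at h2
        rw [z1]
        omega
      refine ⟨f0, fun P hP => ?_, fun P hP => ⟨fun ho => ?_, fun ho => ?_⟩⟩
      · simpa only [onS_not w hP, neg_zero] using h1 P
      · have h2 := h1 P
        simp only [onS_mem w hP, w, if_pos ho, t1 P ho] at h2
        push_cast
        omega
      · have h2 := mul_le_mul_of_nonneg_left (h1 P) (Int.natCast_nonneg (e P))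
        simp only [onS_mem w hP, w, if_neg ho, t2 P ho] at h2
        push_cast
        rw [← hn P hP] at h2 ⊢
        linarith
    exact Or.inl ⟨j * N, f, f', Nat.mul_pos (by omega) hN, orb f f0 a1, orb f' f1 a2, a3⟩
  obtain ⟨q, hq⟩ := Finset.card_pos.1 (show 0 < S.card by omega)
  rcases hR F hF A B δ u hδ hu with hG | ⟨f, f0, hf⟩
  · by_cases ho : ∃ o ∈ S, op o
    · obtain ⟨o, h1, h2⟩ := ho
      refine Or.inr (Or.inr ⟨hG, rat S e op t N N0 hS t0 (fun P _ => t1 P) (fun P hP hb => ?_)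
        (by nlinarith) h1 h2⟩)
      by_cases h : op P
      · rw [t1 P h]
        exact ⟨by omega, fun _ => by omega⟩
      · have h3 : (2 : ℤ) ≤ e P := by
          have := hb.resolve_left h
          have := he P
          omega
        have h4 := n0 P hP
        rw [t2 P h, ← hn P hP]
        refine ⟨by nlinarith, fun h5 => ⟨h, ?_⟩⟩
        have h6 : (e P : ℤ) ≤ 2 := le_of_mul_le_mul_right (by linarith) h4
        omega
    · push Not at ho
      obtain ⟨m, hm⟩ : ∃ m : ℤ, m = N * dg Z - ∑ P ∈ S, t P := ⟨_, rfl⟩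
      have h1 : dg (onS S t - (N : ℤ) • Z + Finsupp.single q m) = 0 := by
        rw [dg_add, dg_sub, dg_smul, dg_onS, dg_single]
        omega
      obtain ⟨f, f0, hf⟩ := hG _ h1.ge
      have h2 : ∀ P, od δ u N f P = -onS S t P - Finsupp.single q m P := fun P => by
        have h3 := key B hf P
        have h4 := hf P
        rw [h1] at h3
        rw [Finsupp.add_apply, Finsupp.sub_apply, Finsupp.smul_apply, smul_eq_mul] at h3 h4
        rw [z1]
        omega
      refine Or.inr (Or.inl ⟨ho, N, f, hN, f0, fun P hP => ?_, fun P hP => ?_⟩)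
      · rw [h2, onS_not t hP, Finsupp.single_eq_of_ne fun h : P = q => hP (h ▸ hq)]
        rfl
      · have h3 : 0 ≤ Finsupp.single q m P := by
          rw [Finsupp.single_apply]
          split_ifs <;> omega
        have h4 := mul_nonneg (Int.natCast_nonneg (e P)) h3
        rw [h2, onS_mem t hP, t2 P (ho P hP), ← hn P hP]
        linarith
  · have h1 : ∀ P, od δ u 1 f P ≤ -dg Z := fun P => by
      have h2 := key B (E := (-1 : ℤ) • Z) (f := f) (fun P => by
        have h3 := hf P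
        rw [z1] at h3
        rw [Finsupp.smul_apply, smul_eq_mul]
        omega) P
      rw [dg_smul, Finsupp.smul_apply, smul_eq_mul] at h2
      rw [z1]
      omega
    have h2 := (hf q).trans (h1 q)
    have h3 := Finset.sum_nonneg t0
    have h4 : dg Z = 0 := by nlinarith
    have h5 := (Finset.sum_eq_zero_iff_of_nonneg t0).1 (by rw [h4] at hd; omega)
    have h6 : ∀ P ∈ S, ¬op P := fun P hP h => by
      have := h5 P hP
      rw [t1 P h] at this
      omega
    have h7 : ∀ P, od δ u 1 f P = 0 := fun P => le_antisymm (by have := h1 P; omega) (hf P)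
    refine Or.inr (Or.inl ⟨h6, 1, f, one_pos, f0, fun P _ => h7 P, fun P hP => ?_⟩)
    have h8 := h5 P hP
    rw [t2 P (h6 P hP), ← hn P hP] at h8
    have h9 : (e P : ℤ) ≤ 1 := le_of_mul_le_mul_right (by linarith) (n0 P hP)
    rw [h7]
    omega

end Pool.Agent.MP_c69980_ag.G3R
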