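import Pool.Agent.MP_c69980_ag.G3R.Spec
import Pool.Agent.MP_ee8c61_ag.M3C.RDer
import Pool.Agent.MP_ee8c61_ag.M3C.RLoc
import Pool.Agent.MP_ee8c61_ag.M3C.RTr
import Pool.Agent.MP_ee8c61_ag.M3C.RTrEv
import Pool.Agent.MP_ee8c61_ag.M3C.RApx
import Pool.Agent.MP_ee8c61_ag.M3C.RP1
import Pool.Agent.MP_ee8c61_ag.M3C.RRES
import Pool.Agent.MP_ee8c61_ag.M3C.RIdx
import Pool.Agent.MP_ee8c61_ag.M3C.RTheta
import Pool.Agent.MP_ee8c61_ag.M3C.RDUAL

/-!
Genus zero, or a holomorphic differential.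
-/

set_option autoImplicit false

noncomputable section

namespace Pool.Agent.MP_c69980_ag.G3R

open G3G Pool.Agent.MP_f3836a_nt.PK WithZero

namespace RR

open Pool.Agent.MP_ee8c61_ag.M3C

theorem thmLoc : StmtLoc := rowLoc rowDer

theorem thmRES : StmtRES := rowRES rowDer thmLoc rowTr rowTrEv rowApx rowP1

theorem thmDUAL : StmtDUAL := rowDUAL thmLoc thmRES rowIdx (rowTheta thmLoc thmRES)

variable {F : Type} [Field F] [Algebra ℂ F] (A : PlA ℂ F)

open Classical in
/-- The valuation of a place. -/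
def vl (P : Place ℂ F) : Valuation F ℤᵐ⁰ where
  toFun f := if f = 0 then 0 else exp (-P.ord f)
  map_zero' := if_pos rfl
  map_one' := by
    have h := A.con P 1
    rw [map_one] at h
    rw [if_neg one_ne_zero, h, neg_zero, exp_zero]
  map_mul' f g := by
    by_cases hf : f = 0
    · simp [hf]
    by_cases hg : g = 0
    · simp [hg]
    rw [if_neg hf, if_neg hg, if_neg (mul_ne_zero hf hg), A.mul P f g hf hg, neg_add, exp_add]
  map_add_le_max' f g := by
    by_cases hf : f = 0
    · simp [hf]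
    by_cases hg : g = 0
    · simp [hg]
    by_cases h : f + g = 0
    · simp [h]
    have := A.add P f g hf hg h
    simp only [if_neg hf, if_neg hg, if_neg h, le_max_iff, exp_le_exp]
    omega

theorem vl_apply (P : Place ℂ F) {f : F} (hf : f ≠ 0) : vl A P f = exp (-P.ord f) := if_neg hf

/-- The place as a normalised valuation. -/
def toH (P : Place ℂ F) : Pool.Agent.MP_cce4c9_lc.H87.Place ℂ F where
  val := vl A P
  surj y := by
    obtain ⟨π, h0, h1⟩ := A.uni P
    by_cases hy : y = 0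
    · exact ⟨0, by rw [map_zero, hy]⟩
    refine ⟨π ^ (-log y), ?_⟩
    rw [map_zpow₀, vl_apply A P h0, h1, ← exp_zsmul]
    simp [exp_log hy]
  triv a ha := by
    rw [vl_apply A P ((map_ne_zero _).2 ha), A.con, neg_zero, exp_zero]

theorem ord_toH (P : Place ℂ F) {f : F} (hf : f ≠ 0) : (toH A P).ord f = P.ord f :=
  (toH A P).ord_eq (vl_apply A P hf)

theorem toH_inj : Function.Injective (toH A) := fun P Q h => by
  ext f
  by_cases hf : f = 0
  · simp [hf]
  · rw [A.mem P f hf, A.mem Q f hf, ← ord_toH A P hf, ← ord_toH A Q hf, h]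

theorem exists_ne {W : Submodule ℂ F} (h : 0 < (Module.finrank ℂ W : ℤ)) : ∃ f ∈ W, f ≠ 0 := by
  refine (Submodule.ne_bot_iff W).1 fun e => ?_
  rw [e, finrank_bot] at h
  exact lt_irrefl _ h

end RR

open RR Pool.Agent.MP_ee8c61_ag.M3C in
theorem rrS : RRStmt := by
  intro F _ _ hF A _ δ u hδ hu
  obtain ⟨g, hg⟩ := Pool.Agent.MP_cce4c9_lc.H7.genus (k := ℂ) (K := F) hF
  rcases Nat.eq_zero_or_pos g with rfl | h0
  · refine Or.inl fun E hE => ?_
    have h1 := hg.ge (E.mapDomain (toH A))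
    rw [Finsupp.degree_mapDomain] at h1
    rw [finsum_eq_sum_of_support_subset (s := E.support) _ (by simp)] at hE
    obtain ⟨f, hf, f0⟩ := exists_ne (W := Pool.Agent.MP_cce4c9_lc.H87.LL (E.mapDomain (toH A)))
      (by rw [Finsupp.degree_apply] at h1; omega)
    refine ⟨f, f0, fun P => ?_⟩
    have h2 := hf (toH A P)
    rwa [Finsupp.mapDomain_apply (toH_inj A), (toH A P).val_le_exp ((toH A P).val_ne f0),
      ord_toH A P f0] at h2
  · obtain ⟨h1, -, h2⟩ := thmDUAL ℂ F hF δ hδ g hg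
    have h3 := h2 0
    have := hg.fin 0
    have h4 : 0 < Module.finrank ℂ (Pool.Agent.MP_cce4c9_lc.H87.LL
        (0 : Pool.Agent.MP_cce4c9_lc.H87.Dv ℂ F)) :=
      Module.finrank_pos_iff_exists_ne_zero.2 ⟨⟨1, fun v => by simp⟩, fun e =>
        one_ne_zero (congrArg Subtype.val e)⟩
    rw [sub_zero, map_zero] at h3
    obtain ⟨f, hf, f0⟩ := exists_ne (W := Pool.Agent.MP_cce4c9_lc.H87.LL (can δ)) (by omega)
    refine Or.inr ⟨f, f0, fun P => ?_⟩
    have u0 : u P ≠ 0 := fun e => by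
      have h := A.con P 0
      rw [map_zero, ← e, hu] at h
      exact one_ne_zero h
    have h5 := (thmLoc ℂ F hF δ hδ (toH A P)).uni (u P) (by
      rw [← hu P]; exact vl_apply A P u0)
    have d0 : δ (u P) ≠ 0 := fun e => by
      rw [e, map_zero] at h5
      exact exp_ne_zero h5.symm
    have h6 := hf (toH A P)
    rw [h1, (toH A P).val_le_exp ((toH A P).val_ne f0), ord_toH A P f0] at h6
    have h7 := (toH A P).ord_eq (n := -cw δ (toH A P)) (by rw [neg_neg]; exact h5)
    rw [ord_toH A P d0] at h7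
    rw [od, h7]
    omega

end Pool.Agent.MP_c69980_ag.G3R
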