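import Pool.Agent.MP_c69980_ag.G3R.XVc

/-!
The explicit vertices of a rational component.
-/

set_option autoImplicit false

noncomputable section

namespace Pool.Agent.MP_c69980_ag.G3R

open Metric Filter Topology Set
open G3 G3G

namespace XV

variable {M : Type} [MetricSpace M] {A : Amb M} {G : Geo A} {i : G.ι} {z : M → ℂ} {o : M}
  {c₀ : ℂ} {κ : M → ℤ} {O : Set C2} {T : C2 → M} {op' : M → Prop}

lemma port {π : G.Prt} {q : M} (h1 : π.i = i) (h2 : π.q = q) :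
    (∀ t w, G.P π (t, w) = (G.ch i q).Y (rt A (G.a i) π.k t / w ^ G.e' i q, w ^ G.e i q)) ∧
    (∀ w, G.p π w = G.ax0 i q (w ^ G.e i q)) ∧ π.k < G.g i q ∧ q ∈ G.Cb i ∧ q ∈ G.S := by
  subst h1 h2
  exact ⟨fun _ _ => rfl, fun _ => rfl, π.lt, π.mem, π.inS⟩

lemma prt_ext {π π' : G.Prt} (h1 : π.i = π'.i) (h2 : π.q = π'.q) (h3 : π.k = π'.k) : π = π' := by
  cases π
  cases π'
  simp_all

lemma rt_add (a k : ℕ) (t s : ℂ) :
    rt A a k (t + s) = rt A a k t * Complex.exp (-(A.σ * s) / a) := by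
  rw [rt, rt, ← Complex.exp_add]
  congr 1
  ring

lemma l_ne (A : Amb M) : A.l.NeBot := by
  refine Filter.NeBot.comap_of_surj inferInstance fun x => ⟨((A.σ * x : ℝ) : ℂ), ?_⟩
  rcases A.hσ with h | h <;> simp [Amb.dp, h]

lemma per {S : Sk A} (h : G.Is S) (ho : o ∈ G.Cb i) (oS : o ∈ G.S) (t : ℂ) :
    rt A (G.a i) 0 (t + tp S.N) = rt A (G.a i) 0 t := by
  have hr := h.rad
  have := l_ne A
  have w0 : ((S.r₀ / 2 : ℝ) : ℂ) ≠ 0 := Complex.ofReal_ne_zero.2 (half_pos hr.1).ne'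
  have w1 : ‖((S.r₀ / 2 : ℝ) : ℂ)‖ < S.r₀ := by
    rw [Complex.norm_real, Real.norm_of_nonneg (half_pos hr.1).le]
    exact half_lt_self hr.1
  generalize ((S.r₀ / 2 : ℝ) : ℂ) = w at w0 w1
  have b := isOpen_ball.mem_nhds (ball0 (small hr ho oS w1))
  have k : ∀ c : ℂ, ∀ᶠ s in A.l, ((rt A (G.a i) 0 s * c / w ^ G.e' i o, w ^ G.e i o) : C2) ∈
      ball (0 : C2) (G.ch i o).r := fun c => by
    have := (((rt_lim (A := A) (a_pos ho)).mul_const c).div_const (w ^ G.e' i o)).prodMk_nhds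
      (tendsto_const_nhds (x := w ^ G.e i o))
    rw [zero_mul, zero_div] at this
    exact this.eventually b
  obtain ⟨s, s1, s2⟩ := ((k (Complex.exp (-(A.σ * tp S.N) / G.a i))).and (k 1)).exists
  have e := S.Pp (h.ep.symm ⟨i, o, 0, ho, oS, g_pos ho⟩) s w
  rw [h.P, h.ep.apply_symm_apply, (port rfl rfl).1, (port rfl rfl).1, rt_add] at e
  rw [mul_one] at s2
  have e1 := congrArg Prod.fst ((G.ok i o ho).1.inj s1 s2 e)
  rw [rt_add, (mul_eq_left₀ (rt_ne _ _ _)).1 ((div_left_inj' (pow_ne_zero _ w0)).1 e1), mul_one]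

variable (h : TF G i z o c₀ κ O T) (cv : Cov (G.a i) (Sfin G i o) z c₀ κ o (G.e i) op')

/-- The charts of the vertices. -/
def VV (T : C2 → M) (j : cv.J) (q : C2) : M :=
  T (rt A (G.a i) 0 q.1 * cv.lam j q.2, cv.zf q.2)

lemma ev_D {ω : ℂ} (h0 : ω ≠ 0) (hH : ω ∉ cv.H) : ∀ᶠ v in 𝓝 ω, v ≠ 0 ∧ v ∉ cv.H :=
  (eventually_ne_nhds h0).and (cv.H.finite_toSet.isClosed.isOpen_compl.mem_nhds hH)

include h

lemma vl_mem {ω : ℂ} (h0 : ω ≠ 0) (hH : ω ∉ cv.H) :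
    ((0, cv.zf ω) : C2) ∈ O ∧ T (0, cv.zf ω) ∈ G.Cb i \ G.S := by
  obtain ⟨p, hp, e⟩ := h.sur _ (cv.an ω h0 hH).2.2.1
  rw [← e, (h.ax p hp).2]
  exact ⟨(h.ax p hp).1, hp⟩

lemma vl_cont {ω : ℂ} (h0 : ω ≠ 0) (hH : ω ∉ cv.H) :
    ContinuousAt (fun v => T (0, cv.zf v)) ω :=
  (G.F.cont T _ (h.ch _ (vl_mem h cv h0 hH).1)).comp_of_eq
    (continuousAt_const.prodMk (cv.an ω h0 hH).1.continuousAt) rfl

omit h in
lemma y_lim (a0 : 0 < G.a i) (j : cv.J) {ω : ℂ} (h0 : ω ≠ 0) (hH : ω ∉ cv.H) :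
    Tendsto (fun p : C2 => ((rt A (G.a i) 0 p.1 * cv.lam j p.2, cv.zf p.2) : C2)) (A.l ×ˢ 𝓝 ω)
      (𝓝 (0, cv.zf ω)) := by
  obtain ⟨a1, -, -, a2⟩ := cv.an ω h0 hH
  have := (((rt_lim (A := A) a0).comp tendsto_fst).mul
    ((a2 j).1.continuousAt.tendsto.comp tendsto_snd)).prodMk_nhds
      (a1.continuousAt.tendsto.comp (tendsto_snd (f := A.l)))
  rwa [zero_mul] at this

lemma y_mem (a0 : 0 < G.a i) {ρ : ℝ} (hρ : 0 < ρ) : ∀ᶠ t in A.l, ∀ j, ∀ ω ∈ Dv cv.H ρ,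
    ((rt A (G.a i) 0 t * cv.lam j ω, cv.zf ω) : C2) ∈ O :=
  eventually_all.2 fun j => unif (dv_cpt _ _) fun _ hω =>
    (y_lim cv a0 j (dv_ne hρ hω).1 (dv_ne hρ hω).2).eventually
      (h.op.mem_nhds (vl_mem h cv (dv_ne hρ hω).1 (dv_ne hρ hω).2).1)

lemma v_lz (a0 : 0 < G.a i) {j : cv.J} {t ω : ℂ} (h0 : ω ≠ 0) (hH : ω ∉ cv.H)
    (m : ((rt A (G.a i) 0 t * cv.lam j ω, cv.zf ω) : C2) ∈ O) : A.LZ (VV cv T j) (t, ω) := by
  obtain ⟨a1, a2, a3, a4⟩ := cv.an ω h0 hH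
  have e : ∀ p : C2, p.2 ≠ 0 ∧ p.2 ∉ cv.H → (rt A (G.a i) 0 p.1 * cv.lam j p.2) ^ G.a i *
      Rz (Sfin G i o) z c₀ κ (cv.zf p.2) = tau A p.1 := fun p hp => by
    rw [mul_pow, rt_pow a0, mul_assoc, ((cv.an _ hp.1 hp.2).2.2.2 j).2, mul_one]
  have e0 := e (t, ω) ⟨h0, hH⟩
  have ax : AnalyticAt ℂ
      (fun p : C2 => ((rt A (G.a i) 0 p.1 * cv.lam j p.2, cv.zf p.2) : C2)) (t, ω) :=
    (((rt_an _ _ _).fun_comp_of_eq analyticAt_fst rfl).mul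
      ((a4 j).1.fun_comp_of_eq analyticAt_snd rfl)).prod (a1.fun_comp_of_eq analyticAt_snd rfl)
  have aτ : AnalyticAt ℂ (fun y : C2 => y.1 ^ G.a i * Rz (Sfin G i o) z c₀ κ y.2)
      (rt A (G.a i) 0 t * cv.lam j ω, cv.zf ω) :=
    (analyticAt_fst.pow _).mul ((rz_an a3).fun_comp_of_eq analyticAt_snd rfl)
  refine ⟨G.F.lc T _ (t, ω) _ (h.ch _ m) ax aτ (fun e1 => ?_) ?_ ?_ ?_,
    h.opn _ m _ ((h.fib _ m _).2 e0)⟩
  · have d1 : HasDerivAt (fun s : ℂ => ((s, cv.zf ω) : C2)) (1, 0)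
        (rt A (G.a i) 0 t * cv.lam j ω) := (hasDerivAt_id _).prodMk (hasDerivAt_const _ _)
    have d2 := aτ.differentiableAt.hasFDerivAt.comp_hasDerivAt_of_eq _ d1 rfl
    have d3 := d2.unique ((hasDerivAt_pow (G.a i) (rt A (G.a i) 0 t * cv.lam j ω)).mul_const
      (Rz (Sfin G i o) z c₀ κ (cv.zf ω)))
    rw [e1] at d3
    have d4 : (G.a i : ℂ) * tau A t = 0 := by
      rw [← e0, ← pow_sub_one_mul a0.ne' (_ * _)]
      simp only [ContinuousLinearMap.zero_apply] at d3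
      linear_combination (-(rt A (G.a i) 0 t * cv.lam j ω)) * d3
    exact mul_ne_zero (Nat.cast_ne_zero.2 a0.ne') (tau_ne t) d4
  · filter_upwards [h.op.mem_nhds m] with y hy using h.fib y hy
  · exact (continuousAt_snd.eventually (ev_D cv h0 hH)).mono e
  · have d1 : HasFDerivAt (fun p : C2 => cv.zf p.2) _ (t, ω) :=
      a1.differentiableAt.hasDerivAt.hasFDerivAt.comp (t, ω) hasFDerivAt_snd
    rw [dw, d1.fderiv]
    simpa using a2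

end XV

open XV in
theorem xvS : XVStmt := by
  intro M _ A G S h k F _ _ pl ζ o c₀ κ O T op op' hD ho oS hC hT hop oo cv
  have tf := tf_of hD ho oS hC hT
  generalize (fun q => ev (pl q) ζ) = z at tf cv
  have a0 := a_pos ho
  have hr := h.rad
  have tgm : ∀ s, Sl cv.H s → cv.tg s ∈ G.Cb (h.ec k) ∧ cv.tg s ∈ G.S := fun s hs => by
    rcases (cv.loc s hs).1 with e | e
    · rw [e]
      exact ⟨ho, oS⟩
    · exact ⟨(mem_Sfin.1 e).2.1, (mem_Sfin.1 e).1⟩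
  have ex : ∀ (j : cv.J) (s : Bool ⊕ ℂ), ∃ (π : S.Prt) (Ψ : ℂ → ℂ), Sl cv.H s →
      (h.ep π).i = h.ec k ∧ (h.ep π).q = cv.tg s ∧
      (AnalyticAt ℂ Ψ 0 ∧ Ψ 0 = 0 ∧ deriv Ψ 0 ≠ 0) ∧
      ∀ᶠ ξ in 𝓝[≠] (0 : ℂ), (slot s ξ ≠ 0 ∧ slot s ξ ∉ cv.H) ∧ ContinuousAt Ψ ξ ∧
        Mx G (h.ec k) z O T S.r₀ (cv.tg s) (h.ep π).k (cv.zf (slot s ξ)) (cv.lam j (slot s ξ))
          (Ψ ξ) := by
    intro j s
    by_cases hs : Sl cv.H s
    swap
    · exact ⟨h.ep.symm ⟨_, o, 0, ho, oS, g_pos ho⟩, id, fun h' => absurd h' hs⟩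
    obtain ⟨β, b1, b2, b3⟩ := (cv.loc s hs).2
    obtain ⟨n, hn, Ψ, c1, c2, c3, c4⟩ := mx_germ tf hr (tgm s hs).1 (tgm s hs).2
      (x := fun ξ => cv.zf (slot s ξ)) (l := fun ξ => cv.lam j (slot s ξ)) b1 b2 (by
        filter_upwards [b3, slot_ev cv.H s, self_mem_nhdsWithin] with ξ p1 p2 p3
        have := (cv.an _ p2.1 p2.2).2.2.2 j
        exact ⟨this.1.continuousAt.comp (slot_an s p3), this.2, p1⟩)
    refine ⟨h.ep.symm ⟨_, _, n, (tgm s hs).1, (tgm s hs).2, hn⟩, Ψ, fun _ => ?_⟩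
    rw [h.ep.apply_symm_apply]
    exact ⟨rfl, rfl, ⟨c1, c2, c3⟩, (slot_ev cv.H s).and c4⟩
  choose sl Ψ hsl using ex
  obtain ⟨ρ₀, r0, hρ⟩ := rad (ev_all fun j s hs => (hsl j s hs).2.2.2)
  have cms : ∀ j s, Sl cv.H s → S.cm (sl j s) = k := fun j s hs =>
    h.ec.injective ((h.cm _).trans (hsl j s hs).1)
  have vp : ∀ j s, Sl cv.H s → ∀ ξ, ξ ≠ 0 → ‖ξ‖ ≤ ρ₀ →
      T (0, cv.zf (slot s ξ)) = S.p (sl j s) (Ψ j s ξ) := fun j s hs ξ p1 p2 => by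
    rw [h.p, (port (hsl j s hs).1 (hsl j s hs).2.1).2.1]
    exact ((hρ ξ p1 p2 j s hs).2.2.pt tf hr (tgm s hs).1 (tgm s hs).2).2
  have vc : ∀ ρ, 0 < ρ → ContinuousOn (fun v => T (0, cv.zf v)) (Dv cv.H ρ) ∧
      MapsTo (fun v => T (0, cv.zf v)) (Dv cv.H ρ) (S.C k) := fun ρ p =>
    ⟨fun ω hω => (vl_cont tf cv (dv_ne p hω).1 (dv_ne p hω).2).continuousWithinAt,
      fun ω hω => h.C k ▸ (vl_mem tf cv (dv_ne p hω).1 (dv_ne p hω).2).2⟩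
  refine ⟨{
    J := cv.J, H := cv.H, V := VV cv T, vl := fun v => T (0, cv.zf v), sl := sl, Ψ := Ψ
    ρ₀ := ρ₀, ρ0 := r0, H0 := cv.H0, lc := fun ρ p => ?_, lm := fun j ρ p => ?_, vc := vc
    cov := fun c hc => ?_, germ := fun j s hs => (hsl j s hs).2.2.1
    mt := fun j s ρ hs p ε ε0 => ?_, cms := cms, bij := fun π hπ => ?_, opi := fun j => ?_
    pv := fun j t w => by simp only [VV, per h ho oS]
    oph := fun j a ha => ?_, hom := fun j j' b b' => ?_ }⟩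
  · filter_upwards [y_mem tf cv a0 p] with t ht j ω hω
    refine ⟨v_lz tf cv a0 (dv_ne p hω).1 (dv_ne p hω).2 (ht j ω hω), fun j' ω' hω' e => ?_⟩
    have e1 := tf.inj (ht j ω hω) (ht j' ω' hω') e
    exact cv.inj _ _ _ _ (dv_ne p hω).1 (dv_ne p hω).2 (dv_ne p hω').1 (dv_ne p hω').2
      (congrArg Prod.snd e1) (mul_left_cancel₀ (rt_ne _ _ _) (congrArg Prod.fst e1))
  · refine Metric.tendstoUniformlyOn_iff.2 fun ε ε0 => unif (dv_cpt _ _) fun ω hω => ?_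
    obtain ⟨p1, p2⟩ := dv_ne p hω
    have := ((vl_cont tf cv p1 p2).tendsto.comp tendsto_snd).dist
      ((G.F.cont T _ (tf.ch _ (vl_mem tf cv p1 p2).1)).tendsto.comp (y_lim cv a0 j p1 p2))
    rw [dist_self] at this
    exact this.eventually (gt_mem_nhds ε0)
  · obtain ⟨m1, m2⟩ := tf.ax c (h.C k ▸ hc)
    have k1 : ∀ᶠ p in 𝓝 c ×ˢ 𝓝[≠] (0 : ℂ), ∀ j s, Sl cv.H s →
        S.p (sl j s) (Ψ j s p.2) ≠ p.1 := by
      refine ev_all fun j s hs => ?_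
      obtain ⟨N, hN, e⟩ := S.esc (sl j s) k c hc
      obtain ⟨-, -, ⟨g1, g2, -⟩, g3⟩ := hsl j s hs
      have : Tendsto (Ψ j s) (𝓝[≠] 0) (𝓝[≠] 0) := tendsto_nhdsWithin_iff.2
        ⟨(g2 ▸ g1.continuousAt.tendsto).mono_left nhdsWithin_le_nhds, g3.mono fun ξ p => p.2.2.1⟩
      filter_upwards [prod_mem_prod hN (this.eventually e)] with p hp e'
      exact hp.2 (e' ▸ hp.1)
    obtain ⟨N, hN, N', hN', k2⟩ := mem_prod_iff.1 k1
    obtain ⟨δ, δ0, k3⟩ := rad hN'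
    refine ⟨min δ ρ₀, lt_min δ0 r0, fun u hu hcg => ?_⟩
    have c1 : ContinuousAt (fun y : C2 => T (0, y.2)) (0, z c) :=
      (G.F.cont T _ (tf.ch _ m1)).comp_of_eq (by fun_prop) rfl
    have k4 := G.F.onto T _ (tf.ch _ m1) _
      (inter_mem (tf.op.mem_nhds m1) (c1.preimage_mem_nhds (m2.symm ▸ hN)))
    rw [m2] at k4
    have k5 : Tendsto Prod.snd (u : Filter (ℂ × M)) (𝓝[G.F.W] c) :=
      tendsto_nhdsWithin_iff.2 ⟨hcg, hu.2.mono G.F.zb⟩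
    filter_upwards [k5.eventually k4, hu.2] with x hx hz
    obtain ⟨y, ⟨y1, y2⟩, e⟩ := hx
    have f1 := (tf.fib y y1 x.1).1 (by rw [e]; exact hz)
    obtain ⟨j, ω, w1, w2, w3, w4⟩ := cv.surj y.2 (y.1 / rt A (G.a (h.ec k)) 0 x.1) (tf.av y y1)
      (by rw [div_pow, rt_pow a0, div_mul_eq_mul_div, f1, div_self (tau_ne _)])
    refine ⟨j, ω, ?_, ?_⟩
    · by_contra hω
      obtain ⟨s, ξ, s1, s2, s3, rfl⟩ := dv_out (lt_min δ0 r0) w1 w2 hω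
      refine k2 (mk_mem_prod y2 (k3 ξ s2 (s3.le.trans (min_le_left _ _)))) j s s1 ?_
      rw [← vp j s s1 ξ s2 (s3.le.trans (min_le_right _ _)), w3]
    · rw [VV, w3, w4, mul_div_cancel₀ _ (rt_ne _ _ _), e]
  · refine unif (an_cpt _ _) fun ξ hξ => ?_
    have x0 : ξ ≠ 0 := norm_pos_iff.1 (p.trans_le hξ.1)
    obtain ⟨⟨p1, p2⟩, p3, p4⟩ := hρ ξ x0 hξ.2 j s hs
    obtain ⟨a1, -, -, a2⟩ := cv.an _ p1 p2
    have ts : Tendsto (fun q : C2 => slot s q.2) (A.l ×ˢ 𝓝 ξ) (𝓝 (slot s ξ)) :=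
      (slot_an s x0).tendsto.comp tendsto_snd
    obtain ⟨w, w1, w2⟩ := mx_mt tf hr (tgm s hs).1 (tgm s hs).2 p4 tendsto_fst
      (a1.continuousAt.tendsto.comp ts) ((a2 j).1.continuousAt.tendsto.comp ts)
      ((ts.eventually (ev_D cv p1 p2)).mono fun q hq => ((cv.an _ hq.1 hq.2).2.2.2 j).2)
    have w3 := (w1.sub (p3.tendsto.comp tendsto_snd)).norm
    rw [sub_self, norm_zero] at w3
    filter_upwards [w2, w3.eventually (gt_mem_nhds ε0)] with q q1 q2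
    refine ⟨w q, q2, ?_⟩
    rw [h.P, (port (hsl j s hs).1 (hsl j s hs).2.1).1]
    exact q1
  · have πi : (h.ep π).i = h.ec k := by rw [← h.cm, hπ]
    obtain ⟨-, pp, pk, pq, pS⟩ := port πi rfl
    refine existsUnique_of_exists_of_unique ?_ ?_
    · have k1 : ∀ᶠ w in 𝓝[≠] (0 : ℂ), ∀ c ∈ (fun v => T (0, cv.zf v)) '' Dv cv.H ρ₀,
          S.p π w ≠ c := by
        refine unif ((dv_cpt _ _).image_of_continuousOn (vc _ r0).1) fun c hc => ?_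
        obtain ⟨N, hN, e⟩ := S.esc π k c ((vc _ r0).2.image_subset hc)
        filter_upwards [prod_mem_prod e hN] with p hp e'
        exact hp.1 (e' ▸ hp.2)
      obtain ⟨w, w1, w2, w3⟩ := (k1.and (Eventually.and self_mem_nhdsWithin
        (mem_nhdsWithin_of_mem_nhds (ball_mem_nhds 0 hr.1)))).exists
      obtain ⟨x, l, m, m1, m2⟩ := mx_ex tf hr pq pS (h.ep π).k w2 (by simpa using w3)
      obtain ⟨j, ω, o1, o2, rfl, rfl⟩ := cv.surj x l m1 m2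
      have hω : ω ∉ Dv cv.H ρ₀ := fun hω => w1 _ ⟨ω, hω, rfl⟩
        (by rw [h.p, pp]; exact (m.pt tf hr pq pS).2.symm)
      obtain ⟨s, ξ, s1, s2, s3, rfl⟩ := dv_out r0 o1 o2 hω
      obtain ⟨e1, e2⟩ := mx_inj tf hr (tgm s s1).1 (tgm s s1).2 pq pS
        (port (hsl j s s1).1 (hsl j s s1).2.1).2.2.1 pk (hρ ξ s2 s3.le j s s1).2.2 m
      exact ⟨(j, s), s1, h.ep.injective
        (prt_ext ((hsl j s s1).1.trans πi.symm) ((hsl j s s1).2.1.trans e1) e2)⟩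
    · rintro ⟨j, s⟩ ⟨j', s'⟩ ⟨s1, e1⟩ ⟨s2, e2⟩
      dsimp only at s1 s2 e1 e2
      have key : ∀ U ∈ ctr s, ∀ U' ∈ ctr s', j = j' ∧ (U ∩ U').Nonempty := by
        intro U hU U' hU'
        obtain ⟨-, q1, ⟨g1, g2, g3⟩, g4⟩ := hsl j s s1
        obtain ⟨-, q2, ⟨g1', g2', g3'⟩, g4'⟩ := hsl j' s' s2
        have i1 := image_mem_map (m := Ψ j s)
          (eventually_nhdsWithin_iff.1 (g4.and ((slot_ctr s).eventually_mem hU)))
        have i2 := image_mem_map (m := Ψ j' s')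
          (eventually_nhdsWithin_iff.1 (g4'.and ((slot_ctr s').eventually_mem hU')))
        rw [g1.hasStrictDerivAt.map_nhds_eq g3, g2] at i1
        rw [g1'.hasStrictDerivAt.map_nhds_eq g3', g2'] at i2
        obtain ⟨w, w0, ⟨ξ, x1, rfl⟩, ξ', x2, x3⟩ := Filter.nonempty_of_mem (f := 𝓝[≠] (0 : ℂ))
          (inter_mem self_mem_nhdsWithin (mem_nhdsWithin_of_mem_nhds (inter_mem i1 i2)))
        obtain ⟨⟨⟨u1, u2⟩, -, m⟩, u3⟩ := x1 fun e => w0 (by rw [e]; exact g2)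
        obtain ⟨⟨⟨v1, v2⟩, -, m'⟩, v3⟩ := x2 fun e => w0 (by rw [← x3, e]; exact g2')
        rw [x3, e2, ← q2, e2] at m'
        rw [e1, ← q1, e1] at m
        obtain ⟨f1, f2⟩ := cv.inj j j' _ _ u1 u2 v1 v2 (m.2.2.1.symm.trans m'.2.2.1)
          (mul_right_cancel₀ (pow_ne_zero _ m.1) (m.2.2.2.trans m'.2.2.2.symm))
        exact ⟨f1, _, u3, f2 ▸ v3⟩
      refine Prod.ext (key _ univ_mem _ univ_mem).1 ?_
      by_contra hne
      obtain ⟨U, hU, U', hU', d⟩ := Filter.disjoint_iff.1 (ctr_disj cv.H0 s1 s2 hne)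
      exact (key U hU U' hU').2.not_disjoint d
  · have hs : Sl cv.H (.inl true) := fun a e => by cases e
    rw [hop _ (cms j _ hs), (hsl j _ hs).2.1, cv.ti]
    exact oo
  · have hs : Sl cv.H (.inr a) := fun b e => by cases e; exact ha
    rw [hop _ (cms j _ hs), (hsl j _ hs).2.1]
    exact cv.th a ha
  · have hs : ∀ b, Sl cv.H (.inl b) := fun b a e => by cases e
    simp only [h.fl, (hsl _ _ (hs _)).1, (hsl _ _ (hs _)).2.1, true_and]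
    cases b <;> cases b' <;> simp [eq_comm]

end Pool.Agent.MP_c69980_ag.G3R
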