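import Pool.Agent.MP_c69980_ag.G3R.Asm
import Pool.Agent.MP_c69980_ag.G3R.XV
import Pool.Agent.MP_c69980_ag.G3R.RR
import Pool.Agent.MP_c69980_ag.G3R.Num
import Pool.Agent.MP_c69980_ag.G3R.Gen
import Pool.Agent.MP_c69980_ag.G3R.CovA
import Pool.Agent.MP_c69980_ag.G3R.CovB

/-!
The trichotomy for the components of a fibre at an end.
-/

set_option autoImplicit false

namespace Pool.Agent.MP_c69980_ag.G3R

theorem triS (h : G3G.DifStmt) : G3G.TriStmt := triOf h (numS rrS) genS covAS covBS xvS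

end Pool.Agent.MP_c69980_ag.G3R
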