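import Pool.Agent.MP_c69980_ag.G3R.XVc

/-!
The trichotomy from the rows.
-/

set_option autoImplicit false

noncomputable section

namespace Pool.Agent.MP_c69980_ag.G3R

open Metric Filter Topology Set
open G3 G3G Pool.Agent.MP_f3836a_nt.PK XV

namespace Asm

lemma bd0 {f H : ℂ → ℂ} {n : ℤ} (hn : 0 ≤ n) (hH : AnalyticAt ℂ H 0)
    (e : ∀ᶠ w in 𝓝[≠] (0 : ℂ), f w = w ^ n * H w) : Bd0 f := by
  lift n to ℕ using hn
  have c : ContinuousAt (fun w : ℂ => ‖w ^ n * H w‖) 0 :=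
    ((continuousAt_id.pow n).mul hH.continuousAt).norm
  refine ⟨‖(0 : ℂ) ^ n * H 0‖ + 1, ?_⟩
  filter_upwards [e, mem_nhdsWithin_of_mem_nhds (c.eventually (gt_mem_nhds (lt_add_one _)))]
    with w p1 p2
  rw [p1, zpow_natCast]
  exact p2.le

lemma gcd_eq {a b : ℕ} {κ : ℤ} (h : (a : ℤ) ∣ κ - b) : Int.gcd a κ = Nat.gcd a b := by
  obtain ⟨c, hc⟩ := h
  rw [show κ = b + a * c by linarith, Int.gcd_add_mul_left_right, Int.gcd_natCast_natCast]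

variable {M : Type} [MetricSpace M] {A : Amb M} {G : Geo A} {i : G.ι}

lemma e_one {q : M} (h : G.e i q = 1) : (G.a i : ℤ) ∣ (G.ch i q).b := by
  have := a_eq G i q
  rw [h, mul_one] at this
  exact Int.natCast_dvd_natCast.2 (this ▸ Nat.gcd_dvd_right _ _)

lemma one_e {q : M} (hq : q ∈ G.Cb i) (h : (G.a i : ℤ) ∣ (G.ch i q).b) : G.e i q = 1 := by
  rw [Geo.e, Geo.g, Nat.gcd_eq_left (Int.natCast_dvd_natCast.1 h), Nat.div_self (a_pos hq)]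

lemma e_two {q : M} (hq : q ∈ G.Cb i) (h : G.e i q = 2) {κ : ℤ}
    (hκ : (G.a i : ℤ) ∣ κ - (G.ch i q).b) :
    G.a i = 2 * (G.a i / 2) ∧ ∃ m : ℤ, κ = (G.a i / 2 : ℕ) * (2 * m + 1) := by
  have e1 := a_eq G i q
  have e2 := b_eq G i q
  have e3 := e_cop hq
  rw [h] at e1 e3
  have e4 : G.a i / 2 = G.g i q := by omega
  obtain ⟨m, hm⟩ : Odd (G.e' i q : ℤ) := Int.isCoprime_two_right.1 (by exact_mod_cast e3)
  obtain ⟨c, hc⟩ := hκ
  refine ⟨by omega, m + c, ?_⟩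
  rw [e4]
  rw [e2] at hc
  nth_rewrite 1 [e1] at hc
  push_cast at hc
  rw [hm] at hc
  linear_combination hc

lemma par_mem (S : Sk A) {k : S.Cmp} {j : M ⊕ S.Prt} {w : ℂ} (hw : w ∈ S.dom k j) :
    S.par j w ∈ S.C k := by
  rcases j with c | π
  · exact (S.ψc k c hw.1).2.2 (mem_ball_zero_iff.2 hw.2)
  · exact hw.1 ▸ (S.pc π).2 ⟨mem_ball_zero_iff.2 hw.2.2, hw.2.1⟩

variable {F : Type} [Field F] [Algebra ℂ F] {pl : M → Place ℂ F} {ζ : F} {o : M}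

lemma z_inj (hD : Dic G i F pl) (ho : o ∈ G.Cb i) (hC : Crd ζ (pl o)) :
    InjOn (fun q => ev (pl q) ζ) (Sfin G i o) := fun _ hq _ hq' e => by
  obtain ⟨-, p1, p2⟩ := mem_Sfin.1 hq
  obtain ⟨-, p3, p4⟩ := mem_Sfin.1 hq'
  exact hD.bij.injOn p1 p3 (hC.bij.injOn (fun e => p2 (hD.bij.injOn p1 ho e))
    (fun e => p4 (hD.bij.injOn p3 ho e)) e)

/-- The cover in the rational case. -/
lemma cov (hG : GenStmt) (hA : CovAStmt) (hB : CovBStmt) (hD : Dic G i F pl) (hT : Tube G i pl)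
    (gz : Gz F) {op : M → Prop} (r : RatD (G.Cb i ∩ G.S) (G.e i) op) :
    ∃ (ζ : F) (o : M) (c₀ : ℂ) (κ : M → ℤ) (O : Set C2) (T : C2 → M), o ∈ G.Cb i ∧ o ∈ G.S ∧
      Crd ζ (pl o) ∧ Tb G i pl ζ o c₀ κ O T ∧ op o ∧
      Nonempty (Cov (G.a i) (Sfin G i o) (fun q => ev (pl q) ζ) c₀ κ o (G.e i) op) := by
  classical
  obtain ⟨o, ⟨ho, oS⟩, oo, r⟩ := r
  have gen := (hG F hD.ff hD.pa hD.pb).2 gz (pl o)
  have ne : ∀ q ∈ G.Cb i ∩ G.S, q ≠ o → pl q ≠ pl o := fun q hq n e => n (hD.bij.injOn hq.1 ho e)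
  have no : o ∉ Sfin G i o := fun h => (mem_Sfin.1 h).2.2 rfl
  rcases r with ⟨q, hq, qo, r⟩ | ⟨q, hq, q', hq', qo, qo', qq, e1, e2, r⟩
  · obtain ⟨ζ, hC, z0⟩ := (gen _ _ (ne q hq qo) (ne q hq qo)).1
    obtain ⟨c₀, κ, O, T, tb⟩ := hT ζ hC.gen o ho oS (by rw [hC.pole]; decide)
    have qm : q ∈ Sfin G i o := mem_Sfin.2 ⟨hq.2, hq.1, qo⟩
    have oth : ∀ p ∈ Sfin G i o, p ≠ q → ¬op p ∧ G.e i p = 1 ∧ (G.a i : ℤ) ∣ κ p := by
      intro p hp n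
      obtain ⟨p1, p2, p3⟩ := mem_Sfin.1 hp
      obtain ⟨r1, r2⟩ := r p ⟨p2, p1⟩ p3 n
      exact ⟨r1, r2, by simpa using (tb.cg p hp).add (e_one r2)⟩
    refine ⟨ζ, o, c₀, κ, O, T, ho, oS, hC, tb, oo, hA _ _ _ _ _ _ _ _ _ (a_pos ho) tb.c0 no
      (z_inj hD ho hC) ⟨q, qm, z0, ?_, ?_, oth⟩⟩
    · have d1 := tb.co
      rw [← Finset.add_sum_erase _ _ qm] at d1
      have d2 : (G.a i : ℤ) ∣ ∑ p ∈ (Sfin G i o).erase q, κ p := Finset.dvd_sum fun p hp =>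
        (oth p (Finset.mem_of_mem_erase hp) (Finset.ne_of_mem_erase hp)).2.2
      have d3 : (G.a i : ℤ) ∣ -κ q - (G.ch i o).b := by
        have := d2.sub d1
        rwa [show ∀ x y w : ℤ, y - (x + y + w) = -x - w from fun x y w => by ring] at this
      rw [Geo.e, Geo.e, Geo.g, Geo.g, ← gcd_eq d3, ← gcd_eq (tb.cg q qm), Int.gcd_neg]
    · rw [gcd_eq (tb.cg q qm), mul_comm]
      exact (a_eq G i q).symm
  · obtain ⟨ζ, hC, z1, z2⟩ := (gen _ _ (ne q hq qo) (ne q' hq' qo')).2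
      fun e => qq (hD.bij.injOn hq.1 hq'.1 e)
    obtain ⟨c₀, κ, O, T, tb⟩ := hT ζ hC.gen o ho oS (by rw [hC.pole]; decide)
    have qm : q ∈ Sfin G i o := mem_Sfin.2 ⟨hq.2, hq.1, qo⟩
    have qm' : q' ∈ Sfin G i o := mem_Sfin.2 ⟨hq'.2, hq'.1, qo'⟩
    have oth : ∀ p ∈ Sfin G i o, ¬op p ∧
        (p ≠ q → p ≠ q' → G.e i p = 1 ∧ (G.a i : ℤ) ∣ κ p) := by
      intro p hp
      obtain ⟨p1, p2, p3⟩ := mem_Sfin.1 hp
      obtain ⟨r1, r2⟩ := r p ⟨p2, p1⟩ p3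
      exact ⟨r1, fun n n' => ⟨r2 n n', by simpa using (tb.cg p hp).add (e_one (r2 n n'))⟩⟩
    obtain ⟨a2, m, hm⟩ := e_two hq.1 e1 (tb.cg q qm)
    obtain ⟨-, m', hm'⟩ := e_two hq'.1 e2 (tb.cg q' qm')
    refine ⟨ζ, o, c₀, κ, O, T, ho, oS, hC, tb, oo, hB _ _ _ _ _ _ _ _ _ (a_pos ho) tb.c0 no
      (z_inj hD ho hC) ⟨q, qm, q', qm', z1, z2, one_e ho ?_, e1, e2, ⟨_, m, m', a2, hm, hm'⟩, oth⟩⟩
    have d1 := tb.co
    rw [← Finset.add_sum_erase _ _ qm,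
      ← Finset.add_sum_erase _ _ (Finset.mem_erase.2 ⟨qq.symm, qm'⟩)] at d1
    have d2 : (G.a i : ℤ) ∣ ∑ p ∈ ((Sfin G i o).erase q).erase q', κ p :=
      Finset.dvd_sum fun p hp => ((oth p (Finset.mem_of_mem_erase
        (Finset.mem_of_mem_erase hp))).2 (Finset.ne_of_mem_erase (Finset.mem_of_mem_erase hp))
          (Finset.ne_of_mem_erase hp)).2
    have d3 : (G.a i : ℤ) ∣ κ q + κ q' := by
      refine ⟨m + m' + 1, ?_⟩
      have : (G.a i : ℤ) = 2 * (G.a i / 2 : ℕ) := by exact_mod_cast a2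
      rw [hm, hm']
      linear_combination (-(m + m' + 1)) * this
    have := (d1.sub d2).sub d3
    rwa [show ∀ x y s w : ℤ, x + (y + s) + w - s - (x + y) = w from fun x y s w => by ring] at this

end Asm

open Asm in
theorem triOf : TriOf := by
  classical
  intro hDif hN hG hA hB hX M _ A G alg S h k op
  obtain ⟨F, _, _, pl, hD, hT⟩ := alg (h.ec k)
  obtain ⟨δ, δ0⟩ := (hG F hD.ff hD.pa hD.pb).1
  choose u _ hu using hD.pa.uni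
  choose pt p1 p2 using fun P => hD.bij.surjOn (mem_univ P)
  have p3 : ∀ c ∈ G.Cb (h.ec k), pt (pl c) = c := fun c hc => hD.bij.injOn (p1 _) hc (p2 _)
  obtain ⟨op', hop⟩ : ∃ op' : M → Prop, ∀ π, S.cm π = k → (op (S.fl π) ↔ op' (h.ep π).q) := by
    refine ⟨fun q => ∃ π, S.cm π = k ∧ (h.ep π).q = q ∧ op (S.fl π), fun π hπ =>
      ⟨fun p => ⟨π, hπ, rfl, p⟩, ?_⟩⟩
    rintro ⟨π', q1, q2, q3⟩
    rwa [(h.fl π π').2 ⟨by rw [← h.cm, ← h.cm, hπ, q1], q2.symm⟩]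
  obtain ⟨SP, sp⟩ : ∃ SP : Finset (Place ℂ F), ∀ P, P ∈ SP ↔ pt P ∈ G.S := by
    refine ⟨(G.S.filter (· ∈ G.Cb (h.ec k))).image pl, fun P => ?_⟩
    simp only [Finset.mem_image, Finset.mem_filter]
    exact ⟨fun ⟨c, q1, q2⟩ => by rw [← q2, p3 c q1.2]; exact q1.1,
      fun q => ⟨_, ⟨q, p1 P⟩, p2 P⟩⟩
  have card : 2 ≤ SP.card := by
    have := ncard_le_ncard_of_injOn pl (s := G.Cb (h.ec k) ∩ G.S) (t := SP)
      (fun c hc => (sp _).2 (by rw [p3 c hc.1]; exact hc.2))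
      (hD.bij.injOn.mono inter_subset_left) SP.finite_toSet
    rw [ncard_coe_finset] at this
    have := G.S3 (h.ec k)
    omega
  have off : ∀ c ∈ S.C k, pl c ∉ SP := fun c hc e => by
    rw [h.C] at hc
    rw [sp, p3 c hc.1] at e
    exact hc.2 e
  have prt : ∀ π, S.cm π = k → (h.ep π).i = h.ec k ∧ pl (h.ep π).q ∈ SP ∧
      pt (pl (h.ep π).q) = (h.ep π).q ∧ 0 < G.e (h.ec k) (h.ep π).q := fun π hπ => by
    have e : (h.ep π).i = h.ec k := by rw [← h.cm, hπ]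
    have m : (h.ep π).q ∈ G.Cb (h.ec k) := e ▸ (h.ep π).mem
    exact ⟨e, (sp _).2 (by rw [p3 _ m]; exact (h.ep π).inS), p3 _ m, e_pos m⟩
  rcases hN F hD.ff hD.pa hD.pb δ u SP (fun P => G.e (h.ec k) (pt P)) (fun P => op' (pt P)) δ0 hu
    card (fun P => e_pos (p1 P)) with ⟨μ, f, f', μ0, o1, o2, ind⟩ | ⟨no, μ, f, μ0, f0, o1, o2⟩ |
      ⟨gz, r⟩
  · obtain ⟨η, h1, h2⟩ := hDif M A G S h k F pl δ u μ hD δ0 hu
    have key : ∀ g, Orb δ u SP (fun P => G.e (h.ec k) (pt P)) (fun P => op' (pt P)) μ g →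
        S.Dif k μ (η g) ∧ ∀ π, S.cm π = k →
          (op (S.fl π) → Bd0 fun w => w ^ (μ - 1) * η g (.inr π) w) ∧
          (¬op (S.fl π) → Bd0 (η g (.inr π))) := by
      intro g og
      obtain ⟨d1, -, d2⟩ := h1 g og.1 fun c hc => og.2.1 _ (off c hc)
      refine ⟨d1, fun π hπ => ?_⟩
      obtain ⟨H, H1, -, H2⟩ := d2 π hπ
      obtain ⟨q1, q2, q3, q4⟩ := prt π hπ
      obtain ⟨b1, b2⟩ := og.2.2 _ q2
      simp only [q3, ← hop π hπ] at b1 b2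
      rw [q1] at H2
      refine ⟨fun p => ?_, fun p => bd0 (b2 p) H1 H2⟩
      have := b1 p
      have q5 : (1 : ℤ) ≤ G.e (h.ec k) (h.ep π).q := by exact_mod_cast q4
      refine bd0 (n := (μ - 1 : ℕ) + (G.e (h.ec k) (h.ep π).q * od δ u μ g (pl (h.ep π).q) +
        μ * (G.e (h.ec k) (h.ep π).q - 1 : ℤ))) ?_ H1 ?_
      · rw [Nat.cast_sub μ0]
        push_cast
        nlinarith
      · filter_upwards [H2, self_mem_nhdsWithin] with w e w0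
        rw [e, zpow_add₀ w0 (μ - 1 : ℕ), zpow_natCast, mul_assoc]
    exact Or.inl ⟨μ, η f, η f', μ0, (key f o1).1, (key f' o2).1, fun π hπ =>
      ⟨fun p => ⟨((key f o1).2 π hπ).1 p, ((key f' o2).2 π hπ).1 p⟩,
        fun p => ⟨((key f o1).2 π hπ).2 p, ((key f' o2).2 π hπ).2 p⟩⟩, h2 f f' o1.1 o2.1 ind⟩
  · obtain ⟨η, h1, -⟩ := hDif M A G S h k F pl δ u μ hD δ0 hu
    obtain ⟨d1, d2, d3⟩ := h1 f f0 fun c hc => (o1 _ (off c hc)).ge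
    refine Or.inr (Or.inl ⟨fun π hπ p => ?_, μ, η f, μ0, d1, fun j w hw e => ?_, fun π hπ => ?_⟩)
    · obtain ⟨-, q2, q3, -⟩ := prt π hπ
      exact no _ q2 (by simp only [q3]; exact (hop π hπ).1 p)
    · have := (d2 j w hw).1 e
      rw [o1 _ (off _ (par_mem S hw))] at this
      exact lt_irrefl _ this
    · obtain ⟨H, H1, H0, H2⟩ := d3 π hπ
      obtain ⟨q1, q2, q3, -⟩ := prt π hπ
      have b := o2 _ q2
      simp only [q3] at b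
      rw [q1] at H2
      refine bd0 (neg_nonneg.2 b) (H1.inv H0) (H2.mono fun w e => ?_)
      rw [e, mul_inv, zpow_neg]
      rfl
  · have r' : RatD (G.Cb (h.ec k) ∩ G.S) (G.e (h.ec k)) op' := by
      have m : ∀ P ∈ (SP : Set (Place ℂ F)), pt P ∈ G.Cb (h.ec k) ∩ G.S := fun P hP =>
        ⟨p1 P, (sp P).1 hP⟩
      have m' : ∀ c ∈ G.Cb (h.ec k) ∩ G.S, pl c ∈ (SP : Set (Place ℂ F)) := fun c hc =>
        (sp _).2 (by rw [p3 c hc.1]; exact hc.2)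
      have n : ∀ P P', P ≠ P' → pt P ≠ pt P' := fun P P' q e => q (by rw [← p2 P, e, p2])
      have n' : ∀ c ∈ G.Cb (h.ec k) ∩ G.S, ∀ P, c ≠ pt P → pl c ≠ P := fun c hc P q e =>
        q (by rw [← e, p3 c hc.1])
      obtain ⟨o, ho, oo, r⟩ := r
      refine ⟨pt o, m o ho, oo, ?_⟩
      rcases r with ⟨q, hq, qo, r⟩ | ⟨q, hq, q', hq', qo, qo', qq, e1, e2, r⟩
      · refine Or.inl ⟨pt q, m q hq, n _ _ qo, fun c hc c1 c2 => ?_⟩
        have := r _ (m' c hc) (n' c hc _ c1) (n' c hc _ c2)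
        simpa only [p3 c hc.1] using this
      · refine Or.inr ⟨pt q, m q hq, pt q', m q' hq', n _ _ qo, n _ _ qo', n _ _ qq, e1, e2,
          fun c hc c1 => ?_⟩
        have := r _ (m' c hc) (n' c hc _ c1)
        simp only [p3 c hc.1] at this
        exact ⟨this.1, fun c2 c3 => this.2 (n' c hc _ c2) (n' c hc _ c3)⟩
    obtain ⟨ζ, o, c₀, κ, O, T, ho, oS, hC, tb, oo, ⟨cv⟩⟩ := cov hG hA hB hD hT gz r'
    exact Or.inr (Or.inr (hX M A G S h k F pl ζ o c₀ κ O T op op' hD ho oS hC tb hop oo cv))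

end Pool.Agent.MP_c69980_ag.G3R
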