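import Pool.Agent.MP_c69980_ag.G3R.Spec

/-!
Roots of unity modulo a subgroup.
-/

set_option autoImplicit false

noncomputable section

namespace Pool.Agent.MP_c69980_ag.G3R

/-- The root of unity number `k` of order `a`. -/
def zt (a k : ℕ) : ℂ := Complex.exp (2 * Real.pi * Complex.I * k / a)

lemma zt_ne (a k : ℕ) : zt a k ≠ 0 := Complex.exp_ne_zero _

lemma zt_eq (a k : ℕ) : zt a k = Complex.exp (2 * Real.pi * Complex.I / a) ^ k := by
  rw [zt, ← Complex.exp_nat_mul]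
  congr 1
  ring

lemma zt_pow {a : ℕ} (ha : 0 < a) (k : ℕ) : zt a k ^ a = 1 := by
  rw [zt_eq, ← pow_mul, mul_comm k, pow_mul, (Complex.isPrimitiveRoot_exp a ha.ne').pow_eq_one,
    one_pow]

lemma root_split {a g n : ℕ} {m : ℤ} (ha : 0 < a) (h : a = g * n) (hm : IsCoprime m n) {η : ℂ}
    (hη : η ^ a = 1) : ∃ j < g, ∃ ε : ℂ, ε ^ n = 1 ∧ η * ε ^ m = zt a j := by
  have hp := Complex.isPrimitiveRoot_exp a ha.ne'
  haveI : NeZero a := ⟨ha.ne'⟩
  obtain ⟨i, -, rfl⟩ := hp.eq_pow_of_pow_eq_one hη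
  have g0 : 0 < g := Nat.pos_of_mul_pos_right (h ▸ ha)
  obtain ⟨u, v, huv⟩ := hm
  rw [← zt_eq]
  have w0 : Complex.exp (2 * Real.pi * Complex.I / a) ≠ 0 := Complex.exp_ne_zero _
  have h1 : ∀ c : ℤ, Complex.exp (2 * Real.pi * Complex.I / a) ^ ((a : ℤ) * c) = 1 := fun c => by
    rw [zpow_mul, zpow_natCast, hp.pow_eq_one, one_zpow]
  refine ⟨i % g, Nat.mod_lt _ g0,
    Complex.exp (2 * Real.pi * Complex.I / a) ^ (-((g : ℤ) * (i / g : ℕ) * u)), ?_, ?_⟩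
  · rw [← zpow_natCast, ← zpow_mul, ← h1 (-((i / g : ℕ) * u))]
    congr 1
    rw [h]
    push_cast
    ring
  · rw [zt_eq, zt_eq, ← zpow_mul, ← zpow_natCast, ← zpow_natCast, ← zpow_add₀ w0,
      ← mul_one (_ ^ ((i % g : ℕ) : ℤ)), ← h1 ((i / g : ℕ) * v), ← zpow_add₀ w0]
    congr 1
    have e1 : (i : ℤ) = g * (i / g : ℕ) + (i % g : ℕ) := by exact_mod_cast (Nat.div_add_mod i g).symm
    have e2 : (a : ℤ) = g * n := by exact_mod_cast h
    rw [e2]
    linear_combination e1 - (g * (i / g : ℕ) : ℤ) * huv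

lemma root_uniq {a g n : ℕ} (ha : 0 < a) (h : a = g * n) {j j' : ℕ} (hj : j < g) (hj' : j' < g)
    {ε : ℂ} (hε : ε ^ n = 1) (e : zt a j = zt a j' * ε) : j = j' := by
  have hp := Complex.isPrimitiveRoot_exp a ha.ne'
  have n0 : 0 < n := Nat.pos_of_mul_pos_left (h ▸ ha)
  have e1 : zt a j ^ n = zt a j' ^ n := by rw [e, mul_pow, hε, mul_one]
  rw [zt_eq, zt_eq, ← pow_mul, ← pow_mul] at e1
  have := hp.pow_inj (h ▸ Nat.mul_lt_mul_of_pos_right hj n0)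
    (h ▸ Nat.mul_lt_mul_of_pos_right hj' n0) e1
  exact Nat.eq_of_mul_eq_mul_right n0 this

lemma root_one {n : ℕ} {m : ℤ} (hm : IsCoprime m n) {ε : ℂ} (n0 : 0 < n) (h1 : ε ^ n = 1)
    (h2 : ε ^ m = 1) : ε = 1 := by
  obtain ⟨u, v, huv⟩ := hm
  have e0 : ε ≠ 0 := fun e => by simp [e, n0.ne'] at h1
  rw [← zpow_one ε, ← huv, zpow_add₀ e0, mul_comm u, mul_comm v, zpow_mul, zpow_mul, h2,
    zpow_natCast, h1, one_zpow, one_zpow, one_mul]

/-- Roots of unity that tend to one are equal to one. -/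
lemma root_ev {α : Type} {l : Filter α} {a : ℕ} (ha : 0 < a) {η : α → ℂ} {c : ℂ}
    (h : Filter.Tendsto η l (nhds c)) (h1 : ∀ᶠ x in l, η x ^ a = 1) : ∀ᶠ x in l, η x = c := by
  have hf : ({y : ℂ | y ^ a = 1} \ {c}).Finite := by
    refine ((Polynomial.nthRootsFinset a (1 : ℂ)).finite_toSet.subset fun y hy => ?_)
    exact (Polynomial.mem_nthRootsFinset ha 1).2 hy.1
  have := h.eventually (hf.isClosed.isOpen_compl.mem_nhds fun hc => hc.2 rfl)
  filter_upwards [this, h1] with x p q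
  by_contra hx
  exact p ⟨q, hx⟩

end Pool.Agent.MP_c69980_ag.G3R
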