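import Pool.Agent.MP_c69980_ag.G3G.Defs

/-!
The trichotomy for a component of the fibre at an end: statements.
-/

set_option autoImplicit false

noncomputable section

namespace Pool.Agent.MP_c69980_ag.G3R

open Metric Filter Topology Set
open G3 G3G Pool.Agent.MP_f3836a_nt.PK

/-! ### Function fields -/

/-- Quantification over all function fields. -/
def AllK (Φ : ∀ (F : Type) [Field F] [Algebra ℂ F], Prop) : Prop :=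
  ∀ (F : Type) [Field F] [Algebra ℂ F], IsFF ℂ F → PlA ℂ F → PlB ℂ F → Φ F

/-- Genus zero: divisors of nonnegative degree have sections. -/
def Gz (F : Type) [Field F] [Algebra ℂ F] : Prop :=
  ∀ E : Place ℂ F →₀ ℤ, 0 ≤ ∑ᶠ P, E P → ∃ f : F, f ≠ 0 ∧ ∀ P, -E P ≤ P.ord f

/-- Row RR: genus zero, or a holomorphic differential. -/
def RRStmt : Prop := AllK fun F _ _ => ∀ (δ : Derivation ℂ F F) (u : Place ℂ F → F), δ ≠ 0 →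
  (∀ P : Place ℂ F, P.ord (u P) = 1) → Gz F ∨ ∃ f : F, f ≠ 0 ∧ ∀ P, 0 ≤ od δ u 1 f P

section

variable {F : Type} [Field F] [Algebra ℂ F] (δ : Derivation ℂ F F) (u : Place ℂ F → F)
  (S : Finset (Place ℂ F)) (e : Place ℂ F → ℕ) (op : Place ℂ F → Prop)

/-- Orbifold differentials with poles of order less than `μ` at the open places. -/
def Orb (μ : ℕ) (f : F) : Prop := f ≠ 0 ∧ (∀ P, P ∉ S → 0 ≤ od δ u μ f P) ∧
  ∀ P ∈ S, (op P → 1 - (μ : ℤ) ≤ od δ u μ f P) ∧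
    (¬op P → 0 ≤ e P * od δ u μ f P + μ * (e P - 1 : ℤ))

/-- The hyperbolic case. -/
def HypD : Prop := ∃ (μ : ℕ) (f f' : F), 0 < μ ∧ Orb δ u S e op μ f ∧ Orb δ u S e op μ f' ∧
  ∀ s : ℂ, f' ≠ algebraMap ℂ F s * f

/-- The compact case. -/
def DegD : Prop := (∀ P ∈ S, ¬op P) ∧ ∃ (μ : ℕ) (f : F), 0 < μ ∧ f ≠ 0 ∧
  (∀ P, P ∉ S → od δ u μ f P = 0) ∧ ∀ P ∈ S, e P * od δ u μ f P + μ * (e P - 1 : ℤ) ≤ 0

end

/-- The two explicit types, for a set `S` of points with ramification `e`. -/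
def RatD {α : Type} (S : Set α) (e : α → ℕ) (op : α → Prop) : Prop := ∃ o ∈ S, op o ∧
  ((∃ q ∈ S, q ≠ o ∧ ∀ P ∈ S, P ≠ o → P ≠ q → ¬op P ∧ e P = 1) ∨
    ∃ q ∈ S, ∃ q' ∈ S, q ≠ o ∧ q' ≠ o ∧ q ≠ q' ∧ e q = 2 ∧ e q' = 2 ∧
      ∀ P ∈ S, P ≠ o → ¬op P ∧ (P ≠ q → P ≠ q' → e P = 1))

/-- Row Num: the trichotomy in the function field. -/
def NumStmt : Prop := AllK fun F _ _ => ∀ (δ : Derivation ℂ F F) (u : Place ℂ F → F)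
  (S : Finset (Place ℂ F)) (e : Place ℂ F → ℕ) (op : Place ℂ F → Prop), δ ≠ 0 →
  (∀ P : Place ℂ F, P.ord (u P) = 1) → 2 ≤ S.card → (∀ P, 0 < e P) →
  HypD δ u S e op ∨ DegD δ u S e op ∨ (Gz F ∧ RatD (S : Set (Place ℂ F)) e op)

def NumOf : Prop := RRStmt → NumStmt

/-- `ζ` is a coordinate with its pole at `o`. -/
structure Crd {F : Type} [Field F] [Algebra ℂ F] (ζ : F) (o : Place ℂ F) : Prop where
  gen : IntermediateField.adjoin ℂ {ζ} = ⊤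
  pole : o.ord ζ = -1
  reg : ∀ P : Place ℂ F, P ≠ o → P.ord (ζ - algebraMap ℂ F (ev P ζ)) = 1 ∧
    ∀ c : ℂ, ev P (ζ - algebraMap ℂ F c) = ev P ζ - c
  bij : BijOn (fun P : Place ℂ F => ev P ζ) {P | P ≠ o} univ

/-- Row Gen: coordinates with two prescribed values; derivations and uniformisers exist. -/
def GenStmt : Prop := AllK fun F _ _ => (∃ δ : Derivation ℂ F F, δ ≠ 0) ∧
  (Gz F → ∀ (o q q' : Place ℂ F), q ≠ o → q' ≠ o → (∃ ζ : F, Crd ζ o ∧ ev q ζ = 0) ∧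
    (q ≠ q' → ∃ ζ : F, Crd ζ o ∧ ev q ζ = 1 ∧ ev q' ζ = -1))

/-! ### Explicit cyclic covers of the punctured line -/

section

variable {α : Type} (a : ℕ) (Sf : Finset α) (z : α → ℂ) (c₀ : ℂ) (κ : α → ℤ) (o : α)
  (e : α → ℕ) (op : α → Prop)

/-- The rational function of a tube. -/
def Rz (x : ℂ) : ℂ := c₀ * ∏ q ∈ Sf, (x - z q) ^ κ q

open Classical in
/-- The local coordinate of the line at the special point `q`; `o` is the point at infinity. -/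
def uc (q : α) (x : ℂ) : ℂ := if q = o then x⁻¹ else x - z q

/-- A parametrisation of the curve `l ^ a * Rz x = 1` by finitely many punctured planes. -/
structure Cov where
  J : Type
  [fJ : Fintype J]
  H : Finset ℂ
  zf : ℂ → ℂ
  lam : J → ℂ → ℂ
  tg : Bool ⊕ ℂ → α
  H0 : (0 : ℂ) ∉ H
  an : ∀ ω, ω ≠ 0 → ω ∉ H → AnalyticAt ℂ zf ω ∧ deriv zf ω ≠ 0 ∧ (∀ q ∈ Sf, zf ω ≠ z q) ∧
    ∀ j, AnalyticAt ℂ (lam j) ω ∧ lam j ω ^ a * Rz Sf z c₀ κ (zf ω) = 1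
  inj : ∀ j j' ω ω', ω ≠ 0 → ω ∉ H → ω' ≠ 0 → ω' ∉ H → zf ω = zf ω' → lam j ω = lam j' ω' →
    j = j' ∧ ω = ω'
  surj : ∀ x l, (∀ q ∈ Sf, x ≠ z q) → l ^ a * Rz Sf z c₀ κ x = 1 →
    ∃ j ω, ω ≠ 0 ∧ ω ∉ H ∧ zf ω = x ∧ lam j ω = l
  loc : ∀ s, Sl H s → (tg s = o ∨ tg s ∈ Sf) ∧ ∃ β : ℂ → ℂ, AnalyticAt ℂ β 0 ∧ β 0 ≠ 0 ∧
    ∀ᶠ ξ in 𝓝[≠] (0 : ℂ), uc z o (tg s) (zf (slot s ξ)) = ξ ^ e (tg s) * β ξ
  ti : tg (.inl true) = o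
  th : ∀ b ∈ H, ¬op (tg (.inr b))

attribute [instance] Cov.fJ

end

/-- Quantification over the data of a cover. -/
def AllC (Φ : ∀ (α : Type) (_ : ℕ) (_ : Finset α) (_ : α → ℂ) (_ : α → ℤ) (_ : α) (_ : α → ℕ)
    (_ : α → Prop), Prop) : Prop :=
  ∀ (α : Type) (a : ℕ) (Sf : Finset α) (z : α → ℂ) (c₀ : ℂ) (κ : α → ℤ) (o : α) (e : α → ℕ)
    (op : α → Prop), 0 < a → c₀ ≠ 0 → o ∉ Sf → InjOn z Sf → Φ α a Sf z κ o e op →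
    Nonempty (Cov a Sf z c₀ κ o e op)

/-- Row CovA: the cover `ω ↦ ω ^ n`. -/
def CovAStmt : Prop := AllC fun _ a Sf z κ o e op => ∃ q₀ ∈ Sf, z q₀ = 0 ∧ e o = e q₀ ∧
  e q₀ * Int.gcd a (κ q₀) = a ∧ ∀ q ∈ Sf, q ≠ q₀ → ¬op q ∧ e q = 1 ∧ (a : ℤ) ∣ κ q

/-- Row CovB: the cover `ω ↦ (ω + ω⁻¹) / 2`. -/
def CovBStmt : Prop := AllC fun _ a Sf z κ o e op => ∃ q₁ ∈ Sf, ∃ q₂ ∈ Sf, z q₁ = 1 ∧ z q₂ = -1 ∧
  e o = 1 ∧ e q₁ = 2 ∧ e q₂ = 2 ∧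
  (∃ (d : ℕ) (m₁ m₂ : ℤ), a = 2 * d ∧ κ q₁ = d * (2 * m₁ + 1) ∧ κ q₂ = d * (2 * m₂ + 1)) ∧
  ∀ q ∈ Sf, ¬op q ∧ (q ≠ q₁ → q ≠ q₂ → e q = 1 ∧ (a : ℤ) ∣ κ q)

/-! ### The explicit vertices -/

/-- Row XV: a tube and a cover give the explicit vertices. -/
def XVStmt : Prop := AllG fun M _ A G => ∀ (S : Sk A) (h : G.Is S) (k : S.Cmp) (F : Type) [Field F]
  [Algebra ℂ F] (pl : M → Place ℂ F) (ζ : F) (o : M) (c₀ : ℂ) (κ : M → ℤ) (O : Set C2)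
  (T : C2 → M) (op : S.Sp → Prop) (op' : M → Prop), Dic G (h.ec k) F pl →
  o ∈ G.Cb (h.ec k) → o ∈ G.S → Crd ζ (pl o) → Tb G (h.ec k) pl ζ o c₀ κ O T →
  (∀ π, S.cm π = k → (op (S.fl π) ↔ op' (h.ep π).q)) → op' o →
  Cov (G.a (h.ec k)) (Sfin G (h.ec k) o) (fun q => ev (pl q) ζ) c₀ κ o (G.e (h.ec k)) op' →
  Nonempty (S.XV k op)

/-- The assembly. -/
def TriOf : Prop := DifStmt → NumStmt → GenStmt → CovAStmt → CovBStmt → XVStmt → TriStmt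

end Pool.Agent.MP_c69980_ag.G3R
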