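import Pool.Agent.MP_c69980_ag.G3R.Root

/-!
General lemmas for the explicit vertices: slots, compactness, roots of germs.
-/

set_option autoImplicit false

noncomputable section

namespace Pool.Agent.MP_c69980_ag.G3R.XV

open Metric Filter Topology Set
open G3 G3G

lemma unif {α Y : Type} [TopologicalSpace Y] {K : Set Y} (hK : IsCompact K) {l : Filter α}
    {P : α → Y → Prop} (h : ∀ y ∈ K, ∀ᶠ p in l ×ˢ 𝓝 y, P p.1 p.2) : ∀ᶠ t in l, ∀ y ∈ K, P t y := by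
  obtain ⟨u, hu, v, hv, H⟩ := mem_prod_iff.1 (hK.mem_prod_nhdsSet_of_forall h)
  filter_upwards [hu] with t ht y hy
  exact H (mk_mem_prod ht (subset_of_mem_nhdsSet hv hy))

lemma an_cpt (r R : ℝ) : IsCompact (An r R) := by
  refine (isCompact_closedBall (0 : ℂ) R).of_isClosed_subset ?_ fun w hw => by simpa using hw.2
  exact (isClosed_le continuous_const continuous_norm).inter
    (isClosed_le continuous_norm continuous_const)

lemma dv_cpt (H : Finset ℂ) (ρ : ℝ) : IsCompact (Dv H ρ) := by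
  refine (isCompact_closedBall (0 : ℂ) ρ⁻¹).of_isClosed_subset ?_ fun w hw => by simpa using hw.2.1
  refine (isClosed_le continuous_const continuous_norm).inter
    ((isClosed_le continuous_norm continuous_const).inter ?_)
  have : {ω : ℂ | ∀ a ∈ H, ρ ≤ ‖ω - a‖} = ⋂ a ∈ H, {ω : ℂ | ρ ≤ ‖ω - a‖} := by
    ext; simp
  change IsClosed {ω : ℂ | ∀ a ∈ H, ρ ≤ ‖ω - a‖}
  rw [this]
  exact isClosed_biInter fun a _ => isClosed_le continuous_const (by fun_prop)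

lemma dv_ne {H : Finset ℂ} {ρ : ℝ} (h : 0 < ρ) {ω : ℂ} (hω : ω ∈ Dv H ρ) : ω ≠ 0 ∧ ω ∉ H :=
  ⟨fun e => absurd hω.1 (by simpa [e] using h),
    fun e => absurd (hω.2.2 ω e) (by simpa using h)⟩

lemma dv_out {H : Finset ℂ} {ρ : ℝ} (h : 0 < ρ) {ω : ℂ} (h0 : ω ≠ 0) (hH : ω ∉ H)
    (hω : ω ∉ Dv H ρ) : ∃ s ξ, Sl H s ∧ ξ ≠ 0 ∧ ‖ξ‖ < ρ ∧ slot s ξ = ω := by
  by_cases h1 : ρ ≤ ‖ω‖
  swap
  · exact ⟨.inl false, ω, fun a e => (by cases e), h0, not_le.1 h1, rfl⟩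
  by_cases h2 : ‖ω‖ ≤ ρ⁻¹
  swap
  · refine ⟨.inl true, ω⁻¹, fun a e => (by cases e), inv_ne_zero h0, ?_, inv_inv ω⟩
    rw [norm_inv]
    exact inv_lt_of_inv_lt₀ h (not_le.1 h2)
  have : ¬∀ a ∈ H, ρ ≤ ‖ω - a‖ := fun h3 => hω ⟨h1, h2, h3⟩
  push Not at this
  obtain ⟨a, ha, h3⟩ := this
  exact ⟨.inr a, ω - a, fun b e => by cases e; exact ha, sub_ne_zero.2 fun e => hH (e ▸ ha), h3,
    by simp [slot]⟩

lemma sl_fin (H : Finset ℂ) : {s | Sl H s}.Finite := by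
  refine ((finite_range Sum.inl).union (H.finite_toSet.image Sum.inr)).subset ?_
  rintro (b | a) hs
  · exact Or.inl ⟨b, rfl⟩
  · exact Or.inr ⟨a, hs a rfl, rfl⟩

lemma ev_all {α J : Type} [Finite J] {L : Filter α} {H : Finset ℂ}
    {P : J → Bool ⊕ ℂ → α → Prop} (h : ∀ j s, Sl H s → ∀ᶠ x in L, P j s x) :
    ∀ᶠ x in L, ∀ j s, Sl H s → P j s x :=
  eventually_all.2 fun j => ((sl_fin H).eventually_all.2 fun s hs => h j s hs)

lemma slot_inj (s : Bool ⊕ ℂ) : Function.Injective (slot s) := by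
  rcases s with (_ | _) | a
  · exact fun _ _ h => h
  · exact inv_injective
  · exact add_right_injective a

lemma slot_an (s : Bool ⊕ ℂ) {ξ : ℂ} (h : ξ ≠ 0) : ContinuousAt (slot s) ξ := by
  rcases s with (_ | _) | a
  · exact continuousAt_id
  · exact continuousAt_inv₀ h
  · exact continuousAt_const.add continuousAt_id

lemma slot_ev (H : Finset ℂ) (s : Bool ⊕ ℂ) :
    ∀ᶠ ξ in 𝓝[≠] (0 : ℂ), slot s ξ ≠ 0 ∧ slot s ξ ∉ H := by
  have : (slot s ⁻¹' (insert 0 (H : Set ℂ))).Finite :=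
    (H.finite_toSet.insert 0).preimage (slot_inj s).injOn
  filter_upwards [nhdsNE_le_cofinite 0 this.compl_mem_cofinite] with ξ h
  simpa using h

/-- The centre of a slot. -/
def ctr : Bool ⊕ ℂ → Filter ℂ
  | .inl false => 𝓝 0
  | .inl true => Bornology.cobounded ℂ
  | .inr a => 𝓝 a

lemma slot_ctr (s : Bool ⊕ ℂ) : Tendsto (slot s) (𝓝[≠] 0) (ctr s) := by
  rcases s with (_ | _) | a
  · exact nhdsWithin_le_nhds
  · exact tendsto_inv₀_nhdsNE_zero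
  · have : Tendsto (fun ξ : ℂ => a + ξ) (𝓝 0) (𝓝 (a + 0)) :=
      (continuous_const.add continuous_id).tendsto 0
    rw [add_zero] at this
    exact this.mono_left nhdsWithin_le_nhds

lemma ctr_disj {H : Finset ℂ} (h0 : (0 : ℂ) ∉ H) {s s' : Bool ⊕ ℂ} (hs : Sl H s) (hs' : Sl H s')
    (h : s ≠ s') : Disjoint (ctr s) (ctr s') := by
  rcases s with (_ | _) | a <;> rcases s' with (_ | _) | a'
  · exact absurd rfl h
  · exact Metric.disjoint_nhds_cobounded _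
  · exact disjoint_nhds_nhds.2 fun e => h0 (e ▸ hs' a' rfl)
  · exact Metric.disjoint_cobounded_nhds _
  · exact absurd rfl h
  · exact Metric.disjoint_cobounded_nhds _
  · exact disjoint_nhds_nhds.2 fun e => h0 (e ▸ hs a rfl)
  · exact Metric.disjoint_nhds_cobounded _
  · exact disjoint_nhds_nhds.2 fun e => h (e ▸ rfl)

lemma rad {P : ℂ → Prop} (h : ∀ᶠ ξ in 𝓝[≠] (0 : ℂ), P ξ) :
    ∃ δ : ℝ, 0 < δ ∧ ∀ ξ, ξ ≠ 0 → ‖ξ‖ ≤ δ → P ξ := by
  obtain ⟨ε, p, H⟩ := Metric.eventually_nhds_iff.1 (eventually_nhdsWithin_iff.1 h)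
  exact ⟨ε / 2, by positivity, fun ξ a b => H (by rw [dist_zero_right]; linarith) a⟩

/-- A function with finitely many values that is continuous near a puncture is constant. -/
lemma const {η : ℂ → ℂ} {a : ℕ} (ha : 0 < a)
    (h : ∀ᶠ ξ in 𝓝[≠] (0 : ℂ), ContinuousAt η ξ ∧ η ξ ^ a = 1) :
    ∃ c : ℂ, c ^ a = 1 ∧ ∀ᶠ ξ in 𝓝[≠] (0 : ℂ), η ξ = c := by
  obtain ⟨δ, p, H⟩ := rad h
  have hf : ({y : ℂ | y ^ a = 1}).Finite :=
    (Polynomial.nthRootsFinset a (1 : ℂ)).finite_toSet.subset fun y hy =>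
      (Polynomial.mem_nthRootsFinset ha 1).2 hy
  have hc : IsPreconnected (Complex.exp '' {w | w.re < Real.log δ}) :=
    (convex_halfSpace_re_lt _).isPreconnected.image _ Complex.continuous_exp.continuousOn
  have hm : ∀ ξ, ξ ∈ Complex.exp '' {w | w.re < Real.log δ} ↔ ξ ≠ 0 ∧ ‖ξ‖ < δ := by
    intro ξ
    constructor
    · rintro ⟨w, hw, rfl⟩
      refine ⟨Complex.exp_ne_zero w, ?_⟩
      rw [Complex.norm_exp]
      exact (Real.lt_log_iff_exp_lt p).1 hw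
    · rintro ⟨h1, h2⟩
      refine ⟨Complex.log ξ, ?_, Complex.exp_log h1⟩
      change (Complex.log ξ).re < _
      rw [Complex.log_re]
      exact Real.log_lt_log (norm_pos_iff.2 h1) h2
  have h0 : ((δ / 2 : ℝ) : ℂ) ≠ 0 ∧ ‖((δ / 2 : ℝ) : ℂ)‖ < δ := by
    refine ⟨Complex.ofReal_ne_zero.2 (by positivity), ?_⟩
    rw [Complex.norm_real, Real.norm_of_nonneg (by positivity)]
    linarith
  refine ⟨η _, (H _ h0.1 h0.2.le).2, ?_⟩
  filter_upwards [self_mem_nhdsWithin, mem_nhdsWithin_of_mem_nhds (ball_mem_nhds 0 p)] with ξ q r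
  refine hc.constant_of_mapsTo hf.isDiscrete (fun x hx => ?_) (fun x hx => ?_)
    ((hm _).2 ⟨q, by simpa using r⟩) ((hm _).2 h0)
  · exact (H x ((hm x).1 hx).1 ((hm x).1 hx).2.le).1.continuousWithinAt
  · exact (H x ((hm x).1 hx).1 ((hm x).1 hx).2.le).2

/-- The local root of order `e` that takes the value `w` at `w ^ e`. -/
def nr (e : ℕ) (w x : ℂ) : ℂ := w * Complex.exp (Complex.log (x / w ^ e) / e)

lemma nr_pow {e : ℕ} (he : 0 < e) {w x : ℂ} (hw : w ≠ 0) (hx : x ≠ 0) : nr e w x ^ e = x := by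
  have e0 : (e : ℂ) ≠ 0 := Nat.cast_ne_zero.2 he.ne'
  rw [nr, mul_pow, ← Complex.exp_nat_mul, mul_div_cancel₀ _ e0,
    Complex.exp_log (div_ne_zero hx (pow_ne_zero _ hw)), mul_div_cancel₀ _ (pow_ne_zero _ hw)]

lemma nr_self (e : ℕ) {w : ℂ} (hw : w ≠ 0) : nr e w (w ^ e) = w := by
  simp [nr, div_self (pow_ne_zero e hw)]

lemma nr_an (e : ℕ) {w : ℂ} (hw : w ≠ 0) : AnalyticAt ℂ (nr e w) (w ^ e) := by
  refine analyticAt_const.mul (AnalyticAt.cexp' (AnalyticAt.div_const ?_))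
  refine AnalyticAt.clog (analyticAt_id.div_const) ?_
  rw [div_self (pow_ne_zero e hw)]
  exact Complex.one_mem_slitPlane

/-- Solution of `U (Ψ ^ e) = ξ ^ e * β` for `U w = w * H w`. -/
lemma germ {H β : ℂ → ℂ} {e : ℕ} (he : 0 < e) (hH : AnalyticAt ℂ H 0) (H0 : H 0 ≠ 0)
    (hβ : AnalyticAt ℂ β 0) (β0 : β 0 ≠ 0) : ∃ γ : ℂ → ℂ, AnalyticAt ℂ γ 0 ∧ γ 0 ≠ 0 ∧
      ∀ᶠ ξ in 𝓝 (0 : ℂ), (ξ * γ ξ) ^ e * H ((ξ * γ ξ) ^ e) = ξ ^ e * β ξ := by
  have hU : AnalyticAt ℂ (fun w => w * H w) 0 := analyticAt_id.mul hH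
  have dU : deriv (fun w => w * H w) 0 ≠ 0 := by
    have := ((hasDerivAt_id (0 : ℂ)).mul hH.differentiableAt.hasDerivAt).deriv
    change deriv (fun w => w * H w) 0 = _ at this
    rw [this]
    simpa using H0
  obtain ⟨r, ra, r0, rr⟩ : ∃ r : ℂ → ℂ, AnalyticAt ℂ r 0 ∧ r 0 = 0 ∧
      ∀ᶠ y in 𝓝 (0 : ℂ), r y * H (r y) = y := by
    refine ⟨hU.hasStrictDerivAt.localInverse _ _ _ dU, ?_, ?_, ?_⟩
    · simpa using hU.analyticAt_localInverse dU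
    · simpa using (hU.hasStrictDerivAt.eventually_left_inverse dU).self_of_nhds
    · simpa using hU.hasStrictDerivAt.eventually_right_inverse dU
  have hy : AnalyticAt ℂ (fun ξ : ℂ => ξ ^ e * β ξ) 0 := (analyticAt_id.pow e).mul hβ
  have y0 : (fun ξ : ℂ => ξ ^ e * β ξ) 0 = 0 := by simp [he.ne']
  have hx : AnalyticAt ℂ (fun ξ : ℂ => r (ξ ^ e * β ξ)) 0 := ra.comp_of_eq' hy y0
  have x0 : (fun ξ : ℂ => r (ξ ^ e * β ξ)) 0 = 0 := by simp [he.ne', r0]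
  have hq : AnalyticAt ℂ (fun ξ : ℂ => H (r (ξ ^ e * β ξ))) 0 := hH.comp_of_eq' hx x0
  have q0 : H (r ((0 : ℂ) ^ e * β 0)) ≠ 0 := by simpa [he.ne', r0] using H0
  have hg : AnalyticAt ℂ (fun ξ : ℂ => β ξ / H (r (ξ ^ e * β ξ))) 0 := hβ.div hq q0
  have g0 : β 0 / H (r ((0 : ℂ) ^ e * β 0)) ≠ 0 := div_ne_zero β0 q0
  obtain ⟨d, hd⟩ := IsAlgClosed.exists_pow_nat_eq (β 0 / H (r ((0 : ℂ) ^ e * β 0))) he
  have d0 : d ≠ 0 := fun h => g0 (by rw [← hd, h, zero_pow he.ne'])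
  refine ⟨fun ξ => nr e d (β ξ / H (r (ξ ^ e * β ξ))), (nr_an e d0).comp_of_eq' hg hd.symm,
    by simp only [← hd, nr_self e d0]; exact d0, ?_⟩
  have t1 : Tendsto (fun ξ : ℂ => ξ ^ e * β ξ) (𝓝 0) (𝓝 0) := by
    simpa [ContinuousAt, he.ne'] using hy.continuousAt
  filter_upwards [t1.eventually rr, hq.continuousAt.eventually_ne q0,
    hg.continuousAt.eventually_ne g0] with ξ p1 p2 p3
  have : (ξ * nr e d (β ξ / H (r (ξ ^ e * β ξ)))) ^ e = r (ξ ^ e * β ξ) := by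
    rw [mul_pow, nr_pow he d0 p3, ← mul_div_assoc, div_eq_iff p2, p1]
  rw [this, p1]

end Pool.Agent.MP_c69980_ag.G3R.XV
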