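import Pool.Agent.MP_c69980_ag.G3R.XVa

/-!
The transition between a monomial chart and the coordinates of a tube.
-/

set_option autoImplicit false

noncomputable section

namespace Pool.Agent.MP_c69980_ag.G3R.XV

open Metric Filter Topology Set
open G3 G3G Pool.Agent.MP_f3836a_nt.PK

variable {M : Type} [MetricSpace M] {A : Amb M}

/-- The analytic facts about a tube. -/
structure TF (G : Geo A) (i : G.ι) (z : M → ℂ) (o : M) (c₀ : ℂ) (κ : M → ℤ) (O : Set C2)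
    (T : C2 → M) : Prop where
  op : IsOpen O
  ch : ∀ y ∈ O, G.F.Ch T y
  inj : InjOn T O
  ax : ∀ p ∈ G.Cb i \ G.S, ((0, z p) : C2) ∈ O ∧ T (0, z p) = p
  av : ∀ y ∈ O, ∀ q ∈ Sfin G i o, y.2 ≠ z q
  fib : ∀ y ∈ O, ∀ t, (t, T y) ∈ A.Zb ↔ y.1 ^ G.a i * Rz (Sfin G i o) z c₀ κ y.2 = tau A t
  opn : ∀ y ∈ O, ∀ t, (t, T y) ∈ A.Zb → (t, T y) ∈ A.Z
  sur : ∀ x, (∀ q ∈ Sfin G i o, x ≠ z q) → ∃ p ∈ G.Cb i \ G.S, z p = x
  loc : ∀ q ∈ G.Cb i, q ∈ G.S → ∃ H : ℂ → ℂ, AnalyticAt ℂ H 0 ∧ H 0 ≠ 0 ∧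
    ∀ᶠ w in 𝓝[≠] (0 : ℂ), uc z o q (z (G.ax0 i q w)) = w * H w

lemma mem_Sfin {G : Geo A} {i : G.ι} {o q : M} :
    q ∈ Sfin G i o ↔ q ∈ G.S ∧ q ∈ G.Cb i ∧ q ≠ o := by
  classical
  simp [Sfin]

lemma ball0 {r : ℝ} {w : ℂ} (h : ‖w‖ < r) : ((0, w) : C2) ∈ ball (0 : C2) r := by
  rw [mem_ball_zero_iff, Prod.norm_mk, norm_zero, max_eq_right (norm_nonneg w)]
  exact h

lemma ax_mem (G : Geo A) {i : G.ι} {q : M} (hq : q ∈ G.Cb i) {w : ℂ} (w0 : w ≠ 0)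
    (h : ‖w‖ < (G.ch i q).r) : G.ax0 i q w ∈ G.Cb i \ G.S :=
  ⟨(G.ax i q hq _ (ball0 h)).2 rfl, fun e => w0 (congrArg Prod.snd (G.av i q hq _ (ball0 h) e))⟩

lemma ev_r (G : Geo A) {i : G.ι} {q : M} (hq : q ∈ G.Cb i) :
    ∀ᶠ w in 𝓝 (0 : ℂ), ‖w‖ < (G.ch i q).r := by
  filter_upwards [ball_mem_nhds (0 : ℂ) (G.ok i q hq).1.r0] with w h
  simpa using h

lemma tf_of {G : Geo A} {i : G.ι} {F : Type} [Field F] [Algebra ℂ F] {pl : M → Place ℂ F} {ζ : F}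
    {o : M} {c₀ : ℂ} {κ : M → ℤ} {O : Set C2} {T : C2 → M} (hD : Dic G i F pl) (ho : o ∈ G.Cb i)
    (oS : o ∈ G.S) (hC : Crd ζ (pl o)) (hT : Tb G i pl ζ o c₀ κ O T) :
    TF G i (fun q => ev (pl q) ζ) o c₀ κ O T := by
  refine ⟨hT.op, hT.ch, hT.inj, hT.ax, hT.av, hT.fib, hT.opn, fun x hx => ?_, fun q hq qS => ?_⟩
  · obtain ⟨P, hP, e⟩ := hC.bij.surjOn (mem_univ x)
    obtain ⟨p, hp, rfl⟩ := hD.bij.surjOn (mem_univ P)
    exact ⟨p, ⟨hp, fun h => hx p (mem_Sfin.2 ⟨h, hp, fun e' => hP (e' ▸ rfl)⟩) e.symm⟩, e⟩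
  have ne : ∀ f : F, ∀ P : Place ℂ F, P.ord f ≠ 0 → f ≠ 0 := fun f P h e =>
    h (by rw [e, ← map_zero (algebraMap ℂ F)]; exact hD.pa.con P 0)
  by_cases e : q = o
  · subst e
    obtain ⟨H, h1, h2, h3⟩ := hD.an q hq ζ (ne ζ (pl q) (by rw [hC.pole]; decide))
    refine ⟨fun w => (H w)⁻¹, h1.inv h2, inv_ne_zero h2, ?_⟩
    filter_upwards [mem_nhdsWithin_of_mem_nhds h3] with w h
    simp only [uc, if_true]
    rw [h, hC.pole]
    simp [mul_comm]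
  · have hne : pl q ≠ pl o := fun h => e (hD.bij.injOn hq ho h)
    obtain ⟨r1, -⟩ := hC.reg (pl q) hne
    obtain ⟨H, h1, h2, h3⟩ := hD.an q hq _ (ne _ (pl q) (by rw [r1]; decide))
    refine ⟨H, h1, h2, ?_⟩
    filter_upwards [mem_nhdsWithin_of_mem_nhds h3, mem_nhdsWithin_of_mem_nhds (ev_r G hq),
      self_mem_nhdsWithin] with w h hw w0
    have hm := ax_mem G hq w0 hw
    have hne' : pl (G.ax0 i q w) ≠ pl o := fun h => hm.2 (hD.bij.injOn hm.1 ho h ▸ oS)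
    simp only [uc, if_neg e]
    rw [← (hC.reg _ hne').2, h, r1, zpow_one]

lemma rz_an {α : Type} {Sf : Finset α} {z : α → ℂ} {c₀ : ℂ} {κ : α → ℤ} {x : ℂ}
    (h : ∀ q ∈ Sf, x ≠ z q) : AnalyticAt ℂ (Rz Sf z c₀ κ) x :=
  analyticAt_const.mul (Finset.analyticAt_fun_prod _ fun q hq =>
    (analyticAt_id.sub analyticAt_const).zpow (sub_ne_zero.2 (h q hq)))

lemma tau_ne (t : ℂ) : tau A t ≠ 0 := Complex.exp_ne_zero _

lemma tau_sur {c : ℂ} (hc : c ≠ 0) : ∃ t, tau A t = c := by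
  have s0 : (A.σ : ℂ) ≠ 0 := by rcases A.hσ with h | h <;> simp [h]
  exact ⟨-Complex.log c / A.σ, by rw [tau, mul_div_cancel₀ _ s0, neg_neg, Complex.exp_log hc]⟩

lemma rt_ne (a k : ℕ) (t : ℂ) : rt A a k t ≠ 0 := Complex.exp_ne_zero _

lemma rt_eq (a k : ℕ) (t : ℂ) : rt A a k t = zt a k * rt A a 0 t := by
  rw [rt, rt, zt, ← Complex.exp_add]
  congr 1
  push_cast
  ring

lemma rt_pow {a : ℕ} (ha : 0 < a) (t : ℂ) : rt A a 0 t ^ a = tau A t := by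
  have : (a : ℂ) ≠ 0 := Nat.cast_ne_zero.2 ha.ne'
  rw [rt, tau, ← Complex.exp_nat_mul, mul_div_cancel₀ _ this]
  simp

lemma rt_an (a k : ℕ) (t : ℂ) : AnalyticAt ℂ (rt A a k) t :=
  AnalyticAt.cexp' ((analyticAt_const.sub (analyticAt_const.mul analyticAt_id)).div_const)

lemma rt_lim {a : ℕ} (ha : 0 < a) : Tendsto (rt A a 0) A.l (𝓝 0) := by
  rw [tendsto_zero_iff_norm_tendsto_zero]
  have h : Tendsto (fun t => -(A.dp t / a)) A.l atBot :=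
    tendsto_neg_atTop_atBot.comp (tendsto_comap.atTop_div_const (Nat.cast_pos.2 ha))
  refine (Real.tendsto_exp_atBot.comp h).congr fun t => ?_
  rw [rt, Complex.norm_exp]
  simp [Amb.dp, neg_div]

variable {G : Geo A} {i : G.ι} {z : M → ℂ} {o : M} {c₀ : ℂ} {κ : M → ℤ} {O : Set C2} {T : C2 → M}

variable (G i O T) in
/-- The transition map. -/
def th (q : M) (y : C2) : C2 := @Function.invFunOn _ _ ⟨0⟩ T O ((G.ch i q).Y y)

variable (G i O T) in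
/-- The derivative of its first coordinate along the axis. -/
def hh (q : M) (x : ℂ) : ℂ := (fderiv ℂ (th G i O T q) (0, x) (1, 0)).1

lemma th_eq (h : TF G i z o c₀ κ O T) {q : M} {x y : C2} (hy : y ∈ O)
    (e : (G.ch i q).Y x = T y) : th G i O T q x = y := by
  rw [th, e]
  exact @InjOn.leftInvOn_invFunOn _ _ _ _ ⟨0⟩ h.inj y hy

section

variable (h : TF G i z o c₀ κ O T) {q : M} (hq : q ∈ G.Cb i) {x : ℂ} (x0 : x ≠ 0)
  (xr : ‖x‖ < (G.ch i q).r)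

include h hq x0 xr

lemma th_ax : th G i O T q (0, x) = (0, z (G.ax0 i q x)) :=
  th_eq h (h.ax _ (ax_mem G hq x0 xr)).1 (h.ax _ (ax_mem G hq x0 xr)).2.symm

lemma th_an : AnalyticAt ℂ (th G i O T q) (0, x) ∧ ∀ᶠ y in 𝓝 ((0, x) : C2),
    th G i O T q y ∈ O ∧ (G.ch i q).Y y = T (th G i O T q y) := by
  obtain ⟨m, e⟩ := h.ax _ (ax_mem G hq x0 xr)
  obtain ⟨θ, a1, a2, a3⟩ := G.F.trans _ T _ _ ((G.ok i q hq).1.ch _ (ball0 xr)) (h.ch _ m) e.symm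
  have a4 : ∀ᶠ y in 𝓝 ((0, x) : C2), θ y ∈ O :=
    a1.continuousAt.eventually (h.op.mem_nhds (a2 ▸ m))
  have a5 : ∀ᶠ y in 𝓝 ((0, x) : C2), θ y = th G i O T q y := by
    filter_upwards [a3, a4] with y p1 p2
    exact (th_eq h p2 p1).symm
  refine ⟨a1.congr a5, ?_⟩
  filter_upwards [a3, a4, a5] with y p1 p2 p3
  rw [← p3]
  exact ⟨p2, p1⟩

lemma hh_cont : ContinuousAt (hh G i O T q) x := by
  have h1 := (th_an h hq x0 xr).1.fderiv.continuousAt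
  have h2 : ContinuousAt (fun w : ℂ => ((0, w) : C2)) x := by fun_prop
  exact ((h1.comp h2).clm_apply continuousAt_const).fst

lemma th_lim : Tendsto (fun y : C2 => (th G i O T q y).1 / y.1) (𝓝[{y | y.1 ≠ 0}] (0, x))
    (𝓝 (hh G i O T q x)) := by
  have h1 := (th_an h hq x0 xr).1.hasStrictFDerivAt.isLittleO
  have h2 : Tendsto (fun y : C2 => (y, ((0, y.2) : C2))) (𝓝 (0, x)) (𝓝 ((0, x), (0, x))) :=
    Continuous.tendsto' (by fun_prop) _ _ rfl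
  have h3 : ∀ᶠ y in 𝓝 ((0, x) : C2), y.2 ≠ 0 ∧ ‖y.2‖ < (G.ch i q).r :=
    (continuousAt_snd.eventually_ne x0).and
      ((continuous_snd.norm.tendsto _).eventually (gt_mem_nhds xr))
  have h4 : (fun y : C2 => (th G i O T q y).1 - y.1 * hh G i O T q x) =o[𝓝 (0, x)]
      fun y : C2 => y.1 := by
    refine (Asymptotics.IsBigO.trans_isLittleO ?_ (h1.comp_tendsto h2)).trans_isBigO ?_
    · refine Asymptotics.IsBigO.of_bound' ?_
      filter_upwards [h3] with y hy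
      refine le_trans (le_of_eq ?_) (norm_fst_le _)
      have : y - (0, y.2) = y.1 • ((1, 0) : C2) := by ext <;> simp
      simp only [Function.comp, th_ax h hq hy.1 hy.2, this, map_smul, hh]
      simp
    · refine Asymptotics.IsBigO.of_bound' (Eventually.of_forall fun y => ?_)
      have : y - (0, y.2) = (y.1, 0) := by ext <;> simp
      simp [Function.comp, this]
  have h5 := (h4.tendsto_div_nhds_zero.mono_left
    (nhdsWithin_le_nhds (s := {y : C2 | y.1 ≠ 0}))).add_const (hh G i O T q x)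
  rw [zero_add] at h5
  refine h5.congr' ?_
  filter_upwards [self_mem_nhdsWithin] with y hy
  have : y.1 ≠ 0 := hy
  field_simp
  ring

lemma hh_eq : hh G i O T q x ^ G.a i * Rz (Sfin G i o) z c₀ κ (z (G.ax0 i q x)) =
    x ^ (G.ch i q).b := by
  obtain ⟨ok, ea, -⟩ := G.ok i q hq
  obtain ⟨a1, a2⟩ := th_an h hq x0 xr
  have p1 : Tendsto (fun s : ℂ => ((s, x) : C2)) (𝓝[≠] 0) (𝓝 (0, x)) :=
    (Continuous.tendsto' (by fun_prop) _ _ rfl).mono_left nhdsWithin_le_nhds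
  have p2 : Tendsto (fun s : ℂ => ((s, x) : C2)) (𝓝[≠] 0) (𝓝[{y | y.1 ≠ 0}] (0, x)) :=
    tendsto_nhdsWithin_iff.2 ⟨p1, self_mem_nhdsWithin⟩
  have p3 : Tendsto (fun s : ℂ => (th G i O T q (s, x)).2) (𝓝[≠] 0) (𝓝 (z (G.ax0 i q x))) := by
    have := (continuous_snd.tendsto _).comp (a1.continuousAt.tendsto.comp p1)
    rwa [th_ax h hq x0 xr] at this
  have p4 := (((th_lim h hq x0 xr).comp p2).pow (G.a i)).mul
    ((rz_an (c₀ := c₀) (κ := κ)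
      (h.av _ (h.ax _ (ax_mem G hq x0 xr)).1)).continuousAt.tendsto.comp p3)
  refine tendsto_nhds_unique p4 (tendsto_const_nhds.congr' ?_)
  filter_upwards [p1.eventually a2, p1.eventually (isOpen_ball.mem_nhds (ball0 xr)),
    self_mem_nhdsWithin] with s q1 q2 s0
  have s0 : s ≠ 0 := s0
  obtain ⟨t, ht⟩ := tau_sur (A := A) (mul_ne_zero (pow_ne_zero (G.a i) s0)
    (pow_ne_zero (G.ch i q).b x0))
  have q3 := (ok.fib _ q2 t).2 (by rw [ea, ht])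
  rw [q1.2, h.fib _ q1.1, ht] at q3
  simp only [Function.comp, div_pow]
  rw [div_mul_eq_mul_div, q3, mul_div_cancel_left₀ _ (pow_ne_zero _ s0)]

lemma hh_ne : hh G i O T q x ≠ 0 := fun e => by
  have := hh_eq h hq x0 xr
  have a0 : G.a i ≠ 0 := by
    obtain ⟨ok, ea, -⟩ := G.ok i q hq
    exact ea ▸ ok.a0.ne'
  rw [e, zero_pow a0, zero_mul] at this
  exact pow_ne_zero _ x0 this.symm

end

end Pool.Agent.MP_c69980_ag.G3R.XV
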