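import Pool.Agent.MP_c69980_ag.G3R.XVb

/-!
The ports in the coordinates of a tube.
-/

set_option autoImplicit false

noncomputable section

namespace Pool.Agent.MP_c69980_ag.G3R.XV

open Metric Filter Topology Set
open G3 G3G

variable {M : Type} [MetricSpace M] {A : Amb M} {G : Geo A} {i : G.ι} {z : M → ℂ} {o : M}
  {c₀ : ℂ} {κ : M → ℤ} {O : Set C2} {T : C2 → M} {r₀ : ℝ} {q : M}

lemma a_pos (hq : q ∈ G.Cb i) : 0 < G.a i := by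
  obtain ⟨ok, ea, -⟩ := G.ok i q hq
  exact ea ▸ ok.a0

lemma g_pos (hq : q ∈ G.Cb i) : 0 < G.g i q := Nat.gcd_pos_of_pos_left _ (a_pos hq)

lemma a_eq (G : Geo A) (i : G.ι) (q : M) : G.a i = G.g i q * G.e i q :=
  (Nat.mul_div_cancel' (Nat.gcd_dvd_left _ _)).symm

lemma b_eq (G : Geo A) (i : G.ι) (q : M) : (G.ch i q).b = G.g i q * G.e' i q :=
  (Nat.mul_div_cancel' (Nat.gcd_dvd_right _ _)).symm

lemma e_pos (hq : q ∈ G.Cb i) : 0 < G.e i q :=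
  Nat.pos_of_mul_pos_left (a_eq G i q ▸ a_pos hq)

lemma e_cop (hq : q ∈ G.Cb i) : IsCoprime (G.e' i q : ℤ) (G.e i q) :=
  Nat.isCoprime_iff_coprime.2 (Nat.coprime_div_gcd_div_gcd (g_pos hq)).symm

lemma pow_ab (G : Geo A) (i : G.ι) (q : M) (w : ℂ) :
    (w ^ G.e' i q) ^ G.a i = (w ^ G.e i q) ^ (G.ch i q).b := by
  rw [← pow_mul, ← pow_mul, b_eq]
  nth_rewrite 1 [a_eq G i q]
  congr 1
  ring

lemma small (hr : G.Rad r₀) (hq : q ∈ G.Cb i) (qS : q ∈ G.S) {w : ℂ} (hw : ‖w‖ < r₀) :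
    ‖w ^ G.e i q‖ < (G.ch i q).r := by
  have := hr.2.2 i q hq qS
  have h1 := pow_le_of_le_one (norm_nonneg w) (hw.le.trans hr.2.1) (e_pos hq).ne'
  rw [norm_pow]
  linarith [hr.1]

lemma uc_inj {α : Type} (z : α → ℂ) (o q : α) : Function.Injective (uc z o q) := by
  intro x y h
  unfold uc at h
  split_ifs at h
  · exact inv_injective h
  · exact sub_left_injective h

variable (G i z O T r₀ q) in
/-- The limit of the port `(q, k)` at `w` has the coordinates `(l, x)`. -/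
def Mx (k : ℕ) (x l w : ℂ) : Prop := w ≠ 0 ∧ ‖w‖ < r₀ ∧ z (G.ax0 i q (w ^ G.e i q)) = x ∧
  l * w ^ G.e' i q = zt (G.a i) k * hh G i O T q (w ^ G.e i q)

section

variable (h : TF G i z o c₀ κ O T) (hr : G.Rad r₀) (hq : q ∈ G.Cb i) (qS : q ∈ G.S)

include h hr hq qS

lemma Mx.pt {k : ℕ} {x l w : ℂ} (m : Mx G i z O T r₀ q k x l w) :
    ((0, x) : C2) ∈ O ∧ T (0, x) = G.ax0 i q (w ^ G.e i q) :=
  m.2.2.1 ▸ h.ax _ (ax_mem G hq (pow_ne_zero _ m.1) (small hr hq qS m.2.1))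

lemma mx_inj {q' : M} (hq' : q' ∈ G.Cb i) (qS' : q' ∈ G.S) {k k' : ℕ} (hk : k < G.g i q)
    (hk' : k' < G.g i q') {x l w w' : ℂ} (m : Mx G i z O T r₀ q k x l w)
    (m' : Mx G i z O T r₀ q' k' x l w') : q = q' ∧ k = k' := by
  have e := (m.pt h hr hq qS).2.symm.trans (m'.pt h hr hq' qS').2
  have b := ball0 (small hr hq qS m.2.1)
  have b' := ball0 (small hr hq' qS' m'.2.1)
  obtain rfl := G.dj i i q hq q' hq' qS qS' _ b _ b' e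
  have e1 : w ^ G.e i q = w' ^ G.e i q := congrArg Prod.snd ((G.ok i q hq).1.inj b b' e)
  have h0 := hh_ne h hq (pow_ne_zero _ m.1) (small hr hq qS m.2.1)
  refine ⟨rfl, root_uniq (a_pos hq) (a_eq G i q) hk hk' (ε := (w / w') ^ G.e' i q) ?_ ?_⟩
  · rw [← pow_mul, mul_comm, pow_mul, div_pow, e1, div_self (pow_ne_zero _ m'.1), one_pow]
  · have p := m.2.2.2
    have p' := m'.2.2.2
    rw [← e1] at p'
    rw [div_pow, ← mul_div_assoc, eq_div_iff (pow_ne_zero _ m'.1)]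
    refine mul_right_cancel₀ h0 ?_
    linear_combination w ^ G.e' i q * p' - w' ^ G.e' i q * p

lemma mx_ex (k : ℕ) {w : ℂ} (w0 : w ≠ 0) (hw : ‖w‖ < r₀) : ∃ x l, Mx G i z O T r₀ q k x l w ∧
    (∀ q' ∈ Sfin G i o, x ≠ z q') ∧ l ^ G.a i * Rz (Sfin G i o) z c₀ κ x = 1 := by
  have s := small hr hq qS hw
  have p0 := pow_ne_zero (G.e i q) w0
  refine ⟨_, zt (G.a i) k * hh G i O T q (w ^ G.e i q) / w ^ G.e' i q,
    ⟨w0, hw, rfl, div_mul_cancel₀ _ (pow_ne_zero _ w0)⟩, h.av _ (h.ax _ (ax_mem G hq p0 s)).1, ?_⟩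
  rw [div_pow, mul_pow, zt_pow (a_pos hq), one_mul, pow_ab, div_mul_eq_mul_div,
    hh_eq h hq p0 s, div_self (pow_ne_zero _ p0)]

lemma mx_germ {x l β : ℂ → ℂ} (hβ : AnalyticAt ℂ β 0) (β0 : β 0 ≠ 0)
    (H : ∀ᶠ ξ in 𝓝[≠] (0 : ℂ), ContinuousAt l ξ ∧
      l ξ ^ G.a i * Rz (Sfin G i o) z c₀ κ (x ξ) = 1 ∧ uc z o q (x ξ) = ξ ^ G.e i q * β ξ) :
    ∃ k < G.g i q, ∃ Ψ : ℂ → ℂ, AnalyticAt ℂ Ψ 0 ∧ Ψ 0 = 0 ∧ deriv Ψ 0 ≠ 0 ∧
      ∀ᶠ ξ in 𝓝[≠] (0 : ℂ), ContinuousAt Ψ ξ ∧ Mx G i z O T r₀ q k (x ξ) (l ξ) (Ψ ξ) := by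
  obtain ⟨U, U1, U2, U3⟩ := h.loc q hq qS
  obtain ⟨γ, γ1, γ2, γ3⟩ := germ (e_pos hq) U1 U2 hβ β0
  have a1 : AnalyticAt ℂ (fun ξ => ξ * γ ξ) 0 := analyticAt_id.mul γ1
  have t1 : Tendsto (fun ξ => ξ * γ ξ) (𝓝 0) (𝓝 0) := by simpa [ContinuousAt] using a1.continuousAt
  have n1 : ∀ᶠ ξ in 𝓝[≠] (0 : ℂ), ξ * γ ξ ≠ 0 := by
    filter_upwards [self_mem_nhdsWithin,
      mem_nhdsWithin_of_mem_nhds (γ1.continuousAt.eventually_ne γ2)] with ξ p1 p2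
    exact mul_ne_zero p1 p2
  have t2 : Tendsto (fun ξ => (ξ * γ ξ) ^ G.e i q) (𝓝[≠] 0) (𝓝[≠] 0) := by
    refine tendsto_nhdsWithin_iff.2 ⟨?_, n1.mono fun ξ p => pow_ne_zero _ p⟩
    simpa [(e_pos hq).ne'] using (t1.mono_left nhdsWithin_le_nhds).pow (G.e i q)
  have k1 : ∀ᶠ ξ in 𝓝[≠] (0 : ℂ), ξ * γ ξ ≠ 0 ∧ ‖ξ * γ ξ‖ < r₀ ∧
      ContinuousAt (fun ξ => ξ * γ ξ) ξ ∧ z (G.ax0 i q ((ξ * γ ξ) ^ G.e i q)) = x ξ := by
    filter_upwards [n1, H, t2.eventually U3, mem_nhdsWithin_of_mem_nhds γ3,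
      mem_nhdsWithin_of_mem_nhds a1.eventually_analyticAt,
      mem_nhdsWithin_of_mem_nhds (t1.eventually (ball_mem_nhds 0 hr.1))] with ξ p1 p2 p3 p4 p5 p6
    exact ⟨p1, by simpa using p6, p5.continuousAt, uc_inj z o q (by rw [p3, p4, p2.2.2])⟩
  obtain ⟨η, η1, η2⟩ := const (η := fun ξ => l ξ * (ξ * γ ξ) ^ G.e' i q /
      hh G i O T q ((ξ * γ ξ) ^ G.e i q)) (a_pos hq) (by
    filter_upwards [k1, H] with ξ p1 p2
    have s := small hr hq qS p1.2.1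
    have p0 := pow_ne_zero (G.e i q) p1.1
    have h0 := hh_ne h hq p0 s
    refine ⟨(p2.1.mul (p1.2.2.1.pow _)).div
      ((hh_cont h hq p0 s).comp_of_eq (p1.2.2.1.pow _) rfl) h0, ?_⟩
    rw [div_pow, mul_pow, pow_ab, ← hh_eq h hq p0 s, p1.2.2.2,
      div_eq_one_iff_eq (pow_ne_zero _ h0)]
    linear_combination hh G i O T q ((ξ * γ ξ) ^ G.e i q) ^ G.a i * p2.2.1)
  obtain ⟨k, hk, ε, ε1, ε2⟩ := root_split (a_pos hq) (a_eq G i q) (e_cop hq) η1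
  have ε0 : ε ≠ 0 := fun e => by simp [e, (e_pos hq).ne'] at ε1
  have εn : ‖ε‖ = 1 := by
    have := congrArg norm ε1
    rwa [norm_pow, norm_one, pow_eq_one_iff_of_nonneg (norm_nonneg _) (e_pos hq).ne'] at this
  refine ⟨k, hk, fun ξ => ε * (ξ * γ ξ), analyticAt_const.mul a1, by simp, ?_, ?_⟩
  · have := (((hasDerivAt_id (0 : ℂ)).mul γ1.differentiableAt.hasDerivAt).const_mul ε).deriv
    change deriv (fun ξ => ε * (ξ * γ ξ)) 0 = _ at this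
    rw [this]
    simpa using ⟨ε0, γ2⟩
  filter_upwards [k1, η2] with ξ p1 p2
  have e1 : (ε * (ξ * γ ξ)) ^ G.e i q = (ξ * γ ξ) ^ G.e i q := by rw [mul_pow ε, ε1, one_mul]
  have h0 := hh_ne h hq (pow_ne_zero (G.e i q) p1.1) (small hr hq qS p1.2.1)
  refine ⟨continuousAt_const.mul p1.2.2.1, mul_ne_zero ε0 p1.1, ?_, ?_, ?_⟩
  · rw [norm_mul, εn, one_mul]
    exact p1.2.1
  · rw [e1]
    exact p1.2.2.2
  · rw [e1, ← ε2, ← p2, zpow_natCast, mul_pow ε]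
    field_simp

lemma mx_mt {α : Type} {L : Filter α} {t x l : α → ℂ} {k : ℕ} {x₀ l₀ w₀ : ℂ}
    (m : Mx G i z O T r₀ q k x₀ l₀ w₀) (ht : Tendsto t L A.l) (hx : Tendsto x L (𝓝 x₀))
    (hl : Tendsto l L (𝓝 l₀)) (H : ∀ᶠ p in L, l p ^ G.a i * Rz (Sfin G i o) z c₀ κ (x p) = 1) :
    ∃ w : α → ℂ, Tendsto w L (𝓝 w₀) ∧ ∀ᶠ p in L, T (rt A (G.a i) 0 (t p) * l p, x p) =
      (G.ch i q).Y (rt A (G.a i) k (t p) / w p ^ G.e' i q, w p ^ G.e i q) := by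
  obtain ⟨ok, ea, -⟩ := G.ok i q hq
  have a0 := a_pos hq
  have s := small hr hq qS m.2.1
  have p0 := pow_ne_zero (G.e i q) m.1
  have h0 := hh_ne h hq p0 s
  obtain ⟨m1, m2⟩ := m.pt h hr hq qS
  obtain ⟨θ, a1, a2, a3⟩ := G.F.trans T _ _ _ (h.ch _ m1) (ok.ch _ (ball0 s)) m2
  have ty : Tendsto (fun p => ((rt A (G.a i) 0 (t p) * l p, x p) : C2)) L (𝓝 (0, x₀)) := by
    have := (((rt_lim a0).comp ht).mul hl).prodMk_nhds hx
    rwa [zero_mul] at this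
  generalize hy : (fun p => ((rt A (G.a i) 0 (t p) * l p, x p) : C2)) = y at ty
  have y1 : ∀ p, (rt A (G.a i) 0 (t p) * l p, x p) = y p := fun p => congrFun hy p
  have tx : Tendsto (fun p => θ (y p)) L (𝓝 (0, w₀ ^ G.e i q)) := a2 ▸ a1.continuousAt.tendsto.comp ty
  have tx2 : Tendsto (fun p => (θ (y p)).2) L (𝓝 (w₀ ^ G.e i q)) :=
    (continuous_snd.tendsto _).comp tx
  have k1 : ∀ᶠ p in L, T (y p) = (G.ch i q).Y (θ (y p)) ∧ th G i O T q (θ (y p)) = y p ∧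
      (θ (y p)).1 ^ G.a i * (θ (y p)).2 ^ (G.ch i q).b = tau A (t p) := by
    filter_upwards [ty.eventually a3, ty.eventually (h.op.mem_nhds m1),
      tx.eventually (isOpen_ball.mem_nhds (ball0 s)), H] with p p1 p2 p3 p4
    refine ⟨p1, th_eq h p2 p1.symm, ?_⟩
    rw [← ea, ← ok.fib _ p3, ← p1, h.fib _ p2, ← y1, mul_pow, rt_pow a0, mul_assoc, p4, mul_one]
  have k2 : ∀ᶠ p in L, (θ (y p)).1 ≠ 0 := k1.mono fun p hp e =>
    tau_ne (A := A) (t p) (by rw [← hp.2.2, e, zero_pow a0.ne', zero_mul])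
  have tw : Tendsto (fun p => nr (G.e i q) w₀ (θ (y p)).2) L (𝓝 w₀) := by
    have := (nr_an (G.e i q) m.1).continuousAt.tendsto.comp tx2
    rwa [nr_self _ m.1] at this
  have k3 : ∀ᶠ p in L, nr (G.e i q) w₀ (θ (y p)).2 ^ G.e i q = (θ (y p)).2 :=
    (tx2.eventually_ne p0).mono fun p hp => nr_pow (e_pos hq) m.1 hp
  have tq := (th_lim h hq p0 s).comp (tendsto_nhdsWithin_iff.2 ⟨tx, k2⟩)
  have tη := (hl.mul (tw.pow (G.e' i q))).div (tq.const_mul (zt (G.a i) k))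
    (mul_ne_zero (zt_ne _ _) h0)
  rw [m.2.2.2, div_self (mul_ne_zero (zt_ne _ _) h0)] at tη
  have l0 : ∀ᶠ p in L, l p ≠ 0 := H.mono fun p hp e => by simp [e, a0.ne'] at hp
  have tη' : Tendsto (fun p => (θ (y p)).1 * nr (G.e i q) w₀ (θ (y p)).2 ^ G.e' i q /
      rt A (G.a i) k (t p)) L (𝓝 1) := by
    refine tη.congr' ?_
    filter_upwards [k1, k2, l0] with p p1 p2 p3
    have e : (y p).1 = rt A (G.a i) 0 (t p) * l p := by rw [← y1]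
    have := rt_ne (A := A) (G.a i) 0 (t p)
    have := zt_ne (G.a i) k
    simp only [Pi.div_apply, Function.comp, p1.2.1, e, rt_eq _ k]
    field_simp
  have k4 := root_ev a0 tη' (by
    filter_upwards [k1, k3] with p p1 p2
    rw [div_pow, mul_pow, pow_ab, p2, p1.2.2, rt_eq, mul_pow, zt_pow a0, one_mul, rt_pow a0,
      div_self (tau_ne _)])
  refine ⟨_, tw, ?_⟩
  filter_upwards [k1, k3, k4, tw.eventually_ne m.1] with p p1 p2 p3 p4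
  rw [y1, p1.1, p2]
  congr 1
  refine Prod.ext ?_ rfl
  rw [div_eq_one_iff_eq (rt_ne _ _ _)] at p3
  exact (eq_div_iff (pow_ne_zero _ p4)).2 p3

end

end Pool.Agent.MP_c69980_ag.G3R.XV
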